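import Pool.Agent.Helper64.AY.Stm

/-!
# Module EXP of project AY: the second moment over the constant terms, explicit form
-/

set_option autoImplicit false

namespace Pool.Agent.Helper64.AY.Exp

open Finset
open Pool.Agent.H469R2.NK (e norm_e e_add conj_e e_zero)
open Pool.Agent.H442R2.EHI (sum_e_range e_add_int e_int)
open Pool.Agent.helper24_UT (NN)
open Pool.Agent.Helper64.AY

/-- Parseval modulo `M` -/
lemma pars {ι : Type} (M : ℕ) (hM : 1 ≤ M) (I : Finset ι) (v : ι → ℤ)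
    (hv : ∀ i ∈ I, ∀ j ∈ I, (M : ℤ) ∣ v i - v j → i = j) (b : ι → ℂ) :
    ∑ k ∈ range M, ‖∑ i ∈ I, b i * e ((v i : ℝ) * k / M)‖ ^ 2 = M * ∑ i ∈ I, ‖b i‖ ^ 2 := by
  classical
  have h1 : ∀ z : ℂ, ((‖z‖ ^ 2 : ℝ) : ℂ) = z * (starRingEnd ℂ) z := by
    intro z
    rw [Complex.mul_conj, Complex.normSq_eq_norm_sq]
  apply Complex.ofReal_injective
  rw [Complex.ofReal_sum]
  calc ∑ k ∈ range M, ((‖∑ i ∈ I, b i * e ((v i : ℝ) * k / M)‖ ^ 2 : ℝ) : ℂ)
      = ∑ k ∈ range M, ∑ i ∈ I, ∑ j ∈ I, (b i * (starRingEnd ℂ) (b j)) *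
          e (((v i - v j : ℤ) : ℝ) * k / M) := by
        refine sum_congr rfl fun k _ => ?_
        rw [h1, map_sum, sum_mul_sum]
        refine sum_congr rfl fun i _ => sum_congr rfl fun j _ => ?_
        rw [map_mul, conj_e]
        have : e (((v i - v j : ℤ) : ℝ) * k / M) =
            e ((v i : ℝ) * k / M) * e (-((v j : ℝ) * k / M)) := by
          rw [← e_add]; congr 1; push_cast; ring
        rw [this]; ring
    _ = ∑ i ∈ I, ∑ j ∈ I, (b i * (starRingEnd ℂ) (b j)) * (if i = j then (M : ℂ) else 0) := by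
        rw [sum_comm]
        refine sum_congr rfl fun i hi => ?_
        rw [sum_comm]
        refine sum_congr rfl fun j hj => ?_
        rw [← mul_sum, sum_e_range M hM]
        congr 1
        by_cases hij : i = j
        · subst hij; simp
        · rw [if_neg hij, if_neg fun h => hij (hv i hi j hj h)]
    _ = _ := by
        rw [Complex.ofReal_mul, Complex.ofReal_sum, mul_sum]
        refine sum_congr rfl fun i hi => ?_
        rw [sum_eq_single i, if_pos rfl, h1]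
        · push_cast; ring
        · intro j _ hj
          rw [if_neg hj.symm, mul_zero]
        · intro h; exact absurd hi h

lemma cover {α β : Type} (T : Finset α) (P : Finset β) (S : β → Finset α) (f : α → ℝ)
    (hf : ∀ x, 0 ≤ f x) (h : ∀ x ∈ T, ∃ p ∈ P, x ∈ S p) :
    ∑ x ∈ T, f x ≤ ∑ p ∈ P, ∑ x ∈ S p, f x := by
  classical
  calc ∑ x ∈ T, f x ≤ ∑ x ∈ T, ∑ p ∈ P, (if x ∈ S p then f x else 0) := by
        refine sum_le_sum fun x hx => ?_
        obtain ⟨p, hp, hxp⟩ := h x hx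
        calc f x = (if x ∈ S p then f x else 0) := by rw [if_pos hxp]
          _ ≤ _ := single_le_sum (f := fun p => if x ∈ S p then f x else 0)
              (fun p _ => by split_ifs; exacts [hf x, le_rfl]) hp
    _ = ∑ p ∈ P, ∑ x ∈ T, (if x ∈ S p then f x else 0) := sum_comm
    _ ≤ _ := by
        refine sum_le_sum fun p _ => ?_
        rw [← sum_filter]
        refine sum_le_sum_of_subset_of_nonneg ?_ fun x _ _ => hf x
        intro x hx
        exact (mem_filter.1 hx).2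

/-- Cauchy-Schwarz over the residue classes -/
lemma cs (a : ℤ → ℝ) (u : ℤ) (H q b : ℕ) (hq : 1 ≤ q) :
    ‖∑ m ∈ Ioc u (u + H), (a m : ℂ) * e ((m : ℝ) * ((b : ℝ) / q))‖ ^ 2 ≤ q * NN a u H q := by
  classical
  have hq0 : (q : ℝ) ≠ 0 := by positivity
  have hqz : (0 : ℤ) < q := by exact_mod_cast hq
  have hmaps : ∀ m ∈ Ioc u (u + (H : ℤ)), (m % (q : ℤ)).toNat ∈ range q := by
    intro m _
    rw [mem_range]
    have h1 := Int.emod_lt_of_pos m hqz
    have h2 := Int.emod_nonneg m hqz.ne'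
    omega
  have h1 : ∑ m ∈ Ioc u (u + (H : ℤ)), (a m : ℂ) * e ((m : ℝ) * ((b : ℝ) / q)) =
      ∑ r ∈ range q, e ((r : ℝ) * ((b : ℝ) / q)) *
        ((∑ m ∈ (Ioc u (u + (H : ℤ))).filter (fun m => m % (q : ℤ) = (r : ℤ)), a m : ℝ) : ℂ) := by
    rw [← sum_fiberwise_of_maps_to hmaps]
    refine sum_congr rfl fun r hr => ?_
    have h2 : (Ioc u (u + (H : ℤ))).filter (fun m => (m % (q : ℤ)).toNat = r) =
        (Ioc u (u + (H : ℤ))).filter (fun m => m % (q : ℤ) = (r : ℤ)) := by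
      refine filter_congr fun m _ => ?_
      have h2 := Int.emod_nonneg m hqz.ne'
      constructor
      · intro h; omega
      · intro h; omega
    rw [h2, Complex.ofReal_sum, mul_sum]
    refine sum_congr rfl fun m hm => ?_
    rw [mem_filter] at hm
    have h3 : (m : ℝ) * ((b : ℝ) / q) = (r : ℝ) * ((b : ℝ) / q) + ((m / (q : ℤ) * b : ℤ) : ℝ) := by
      have h4 := Int.emod_add_mul_ediv m q
      rw [hm.2] at h4
      have h5 : (m : ℝ) = (r : ℝ) + (q : ℝ) * ((m / (q : ℤ) : ℤ) : ℝ) := by exact_mod_cast h4.symm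
      push_cast
      rw [h5]
      field_simp
    rw [h3, e_add_int]
    ring
  rw [h1]
  have h2 : ‖∑ r ∈ range q, e ((r : ℝ) * ((b : ℝ) / q)) *
        ((∑ m ∈ (Ioc u (u + (H : ℤ))).filter (fun m => m % (q : ℤ) = (r : ℤ)), a m : ℝ) : ℂ)‖ ≤
      ∑ r ∈ range q, |∑ m ∈ (Ioc u (u + (H : ℤ))).filter (fun m => m % (q : ℤ) = (r : ℤ)), a m| := by
    refine (norm_sum_le _ _).trans (le_of_eq (sum_congr rfl fun r _ => ?_))
    rw [norm_mul, norm_e, one_mul, Complex.norm_real, Real.norm_eq_abs]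
  calc _ ≤ (∑ r ∈ range q,
          |∑ m ∈ (Ioc u (u + (H : ℤ))).filter (fun m => m % (q : ℤ) = (r : ℤ)), a m|) ^ 2 :=
        pow_le_pow_left₀ (norm_nonneg _) h2 2
    _ ≤ (range q).card * ∑ r ∈ range q,
          |∑ m ∈ (Ioc u (u + (H : ℤ))).filter (fun m => m % (q : ℤ) = (r : ℤ)), a m| ^ 2 :=
        sq_sum_le_card_mul_sum_sq
    _ = _ := by
        rw [card_range]
        unfold NN
        congr 1
        exact sum_congr rfl fun _ _ => sq_abs _

lemma NN_nonneg (a : ℤ → ℝ) (u : ℤ) (H q : ℕ) : 0 ≤ NN a u H q :=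
  sum_nonneg fun _ _ => sq_nonneg _

/-- Fourier inversion -/
lemma inv (y N X c : ℕ) (a : ℤ → ℝ) (hN : 1 ≤ N) (hyN : y ^ 2 + y + X ≤ N) (hc : c ≤ X)
    : ((2 * N : ℕ) : ℂ) * ((∑ n ∈ Ioc 0 y, a ((n : ℤ) ^ 2 + n + c) : ℝ) : ℂ) =
      ∑ h ∈ range (2 * N), ((∑ m ∈ Ioc (0 : ℤ) N, (a m : ℂ) * e ((m : ℝ) * (h / (2 * N : ℕ)))) *
        (starRingEnd ℂ) (W y (h / (2 * N : ℕ)))) * e (((-(h : ℤ) : ℤ) : ℝ) * c / (2 * N : ℕ)) := by
  classical
  set M : ℕ := 2 * N with hM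
  have hM1 : 1 ≤ M := by omega
  symm
  calc ∑ h ∈ range M, ((∑ m ∈ Ioc (0 : ℤ) N, (a m : ℂ) * e ((m : ℝ) * (h / M))) *
        (starRingEnd ℂ) (W y (h / M))) * e (((-(h : ℤ) : ℤ) : ℝ) * c / M)
      = ∑ h ∈ range M, ∑ m ∈ Ioc (0 : ℤ) N, ∑ n ∈ Ioc 0 y, (a m : ℂ) *
          e (((m - ((n : ℤ) ^ 2 + n + c) : ℤ) : ℝ) * h / M) := by
        refine sum_congr rfl fun h _ => ?_
        unfold W
        rw [map_sum, sum_mul_sum, sum_mul]
        refine sum_congr rfl fun m _ => ?_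
        rw [sum_mul]
        refine sum_congr rfl fun n _ => ?_
        rw [conj_e]
        have : e (((m - ((n : ℤ) ^ 2 + n + c) : ℤ) : ℝ) * h / M) =
            e ((m : ℝ) * (h / M)) * e (-(((n : ℝ) ^ 2 + n) * (h / M))) *
              e (((-(h : ℤ) : ℤ) : ℝ) * c / M) := by
          rw [← e_add, ← e_add]; congr 1; push_cast; ring
        rw [this]; ring
    _ = ∑ m ∈ Ioc (0 : ℤ) N, ∑ n ∈ Ioc 0 y, (a m : ℂ) *
          (if (M : ℤ) ∣ m - ((n : ℤ) ^ 2 + n + c) then (M : ℂ) else 0) := by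
        rw [sum_comm]
        refine sum_congr rfl fun m _ => ?_
        rw [sum_comm]
        refine sum_congr rfl fun n _ => ?_
        rw [← mul_sum, sum_e_range M hM1]
    _ = ∑ n ∈ Ioc 0 y, (M : ℂ) * (a ((n : ℤ) ^ 2 + n + c) : ℂ) := by
        rw [sum_comm]
        refine sum_congr rfl fun n hn => ?_
        rw [mem_Ioc] at hn
        have hle : (n : ℤ) ^ 2 + n + c ≤ N := by
          have h1 : n ^ 2 + n + c ≤ N := by
            calc n ^ 2 + n + c ≤ y ^ 2 + y + X := by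
                  have := Nat.pow_le_pow_left hn.2 2
                  omega
              _ ≤ N := hyN
          exact_mod_cast h1
        have hpos : (0 : ℤ) < (n : ℤ) ^ 2 + n + c := by
          have : 0 < (n : ℤ) := by exact_mod_cast hn.1
          positivity
        rw [sum_eq_single ((n : ℤ) ^ 2 + n + c)]
        · rw [sub_self, if_pos (dvd_zero _)]; ring
        · intro m hm hne
          rw [mem_Ioc] at hm
          rw [if_neg, mul_zero]
          intro hd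
          apply hne
          have h2 : |m - ((n : ℤ) ^ 2 + n + c)| < M := by
            rw [abs_lt, hM]
            push_cast
            constructor <;> omega
          have := Int.eq_zero_of_abs_lt_dvd hd h2
          omega
        · intro h
          exact absurd (mem_Ioc.2 ⟨hpos, hle⟩) h
    _ = _ := by
        rw [← mul_sum, Complex.ofReal_sum]

lemma W_le (y : ℕ) (t : ℝ) : ‖W y t‖ ≤ y := by
  unfold W
  refine (norm_sum_le _ _).trans ?_
  simp [norm_e]

theorem main (hW : S_WEY) (hG : S_GAL) : S_EXP := by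
  classical
  obtain ⟨k, hk⟩ := hW
  refine ⟨k, ?_⟩
  intro y H N X Q D a hD hDy hDQ hQD hH hHQ hHN hyN hQy ha
  have hDk : (1 : ℝ) ≤ D ^ k := one_le_pow₀ (by linarith)
  have hQ1 : 1 ≤ Q := by
    have : (1 : ℝ) ≤ Q := hDk.trans hDQ
    exact_mod_cast this
  have hQ1' : (1 : ℝ) ≤ Q := by exact_mod_cast hQ1
  have hy1 : (1 : ℝ) ≤ y := hDk.trans hDy
  have hyQ : (16 : ℝ) * Q ^ 2 ≤ y := by nlinarith
  have hH1 : (1 : ℝ) ≤ H := by exact_mod_cast hH
  have hN1 : 1 ≤ N := by omega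
  set M : ℕ := 2 * N with hM
  have hM1 : 1 ≤ M := by omega
  have hM0 : (0 : ℝ) < M := by exact_mod_cast hM1
  set A : ℕ → ℂ := fun h => ∑ m ∈ Ioc (0 : ℤ) N, (a m : ℂ) * e ((m : ℝ) * (h / M)) with hA
  -- Parseval for `A`
  have hparA : ∑ h ∈ range M, ‖A h‖ ^ 2 = M * ∑ m ∈ Ioc (0 : ℤ) N, a m ^ 2 := by
    have h1 := pars M hM1 (Ioc (0 : ℤ) N) (fun m => m) (by
      intro i hi j hj hd
      rw [mem_Ioc] at hi hj
      have h2 : |i - j| < M := by
        rw [abs_lt, hM]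
        push_cast
        constructor <;> omega
      have := Int.eq_zero_of_abs_lt_dvd hd h2
      omega) (fun m => (a m : ℂ))
    have h2 : ∀ h ∈ range M, ‖A h‖ ^ 2 =
        ‖∑ m ∈ Ioc (0 : ℤ) N, (a m : ℂ) * e (((m : ℤ) : ℝ) * h / M)‖ ^ 2 := by
      intro h _
      rw [hA]
      simp only [mul_div_assoc]
    rw [sum_congr rfl h2, h1]
    congr 1
    refine sum_congr rfl fun m _ => ?_
    rw [Complex.norm_real, Real.norm_eq_abs, sq_abs]
  -- the second moment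
  have hsec : ∑ c ∈ range (X + 1), (∑ n ∈ Ioc 0 y, a ((n : ℤ) ^ 2 + n + c)) ^ 2 ≤
      (1 / (M : ℝ)) * ∑ h ∈ range M, ‖A h‖ ^ 2 * ‖W y (h / M)‖ ^ 2 := by
    have h1 := pars M hM1 (range M) (fun h => -(h : ℤ)) (by
      intro i hi j hj hd
      rw [mem_range] at hi hj
      have h2 : |-(i : ℤ) - -(j : ℤ)| < M := by
        rw [abs_lt]
        constructor <;> omega
      have := Int.eq_zero_of_abs_lt_dvd hd h2
      omega) (fun h => A h * (starRingEnd ℂ) (W y (h / M)))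
    have h2 : ∀ c ∈ range (X + 1), (∑ n ∈ Ioc 0 y, a ((n : ℤ) ^ 2 + n + c)) ^ 2 =
        (1 / (M : ℝ) ^ 2) * ‖∑ h ∈ range M, (A h * (starRingEnd ℂ) (W y (h / M))) *
          e (((-(h : ℤ) : ℤ) : ℝ) * c / M)‖ ^ 2 := by
      intro c hc
      rw [mem_range] at hc
      have h3 := inv y N X c a hN1 hyN (by omega)
      rw [← hM] at h3
      have h4 : ‖∑ h ∈ range M, (A h * (starRingEnd ℂ) (W y (h / M))) *
          e (((-(h : ℤ) : ℤ) : ℝ) * c / M)‖ = M * |∑ n ∈ Ioc 0 y, a ((n : ℤ) ^ 2 + n + c)| := by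
        rw [hA]
        simp only
        rw [← h3, norm_mul, Complex.norm_natCast, Complex.norm_real, Real.norm_eq_abs]
      rw [h4, mul_pow, sq_abs]
      field_simp
    rw [sum_congr rfl h2, ← mul_sum]
    calc (1 / (M : ℝ) ^ 2) * ∑ c ∈ range (X + 1), ‖∑ h ∈ range M,
          (A h * (starRingEnd ℂ) (W y (h / M))) * e (((-(h : ℤ) : ℤ) : ℝ) * c / M)‖ ^ 2
        ≤ (1 / (M : ℝ) ^ 2) * ∑ c ∈ range M, ‖∑ h ∈ range M,
          (A h * (starRingEnd ℂ) (W y (h / M))) * e (((-(h : ℤ) : ℤ) : ℝ) * c / M)‖ ^ 2 := by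
          refine mul_le_mul_of_nonneg_left ?_ (by positivity)
          refine sum_le_sum_of_subset_of_nonneg ?_ fun c _ _ => by positivity
          refine range_mono ?_
          have : X ≤ N := le_trans (by omega) hyN
          omega
      _ = (1 / (M : ℝ)) * ∑ h ∈ range M, ‖A h * (starRingEnd ℂ) (W y (h / M))‖ ^ 2 := by
          rw [h1]
          field_simp
      _ = _ := by
          congr 1
          refine sum_congr rfl fun h _ => ?_
          rw [norm_mul, RCLike.norm_conj, mul_pow]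
  refine hsec.trans ?_
  -- minor arcs
  set Mj : Finset ℕ := (range M).filter (fun h : ℕ => (y : ℝ) / D ≤ ‖W y (h / M)‖) with hMj
  have hD0 : (0 : ℝ) < D := by linarith
  have hsplit : ∑ h ∈ range M, ‖A h‖ ^ 2 * ‖W y (h / M)‖ ^ 2 ≤
      ((y : ℝ) / D) ^ 2 * ∑ h ∈ range M, ‖A h‖ ^ 2 + (y : ℝ) ^ 2 * ∑ h ∈ Mj, ‖A h‖ ^ 2 := by
    rw [← sum_filter_add_sum_filter_not (range M) (fun h : ℕ => (y : ℝ) / D ≤ ‖W y (h / M)‖)
      (fun h => ‖A h‖ ^ 2 * ‖W y (h / M)‖ ^ 2), add_comm]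
    refine add_le_add ?_ ?_
    · rw [mul_sum]
      calc _ ≤ ∑ h ∈ (range M).filter (fun h : ℕ => ¬ (y : ℝ) / D ≤ ‖W y (h / M)‖),
            ((y : ℝ) / D) ^ 2 * ‖A h‖ ^ 2 := by
            refine sum_le_sum fun h hh => ?_
            rw [mem_filter, not_le] at hh
            rw [mul_comm]
            refine mul_le_mul_of_nonneg_right ?_ (by positivity)
            exact pow_le_pow_left₀ (norm_nonneg _) hh.2.le 2
        _ ≤ _ := by
            refine sum_le_sum_of_subset_of_nonneg (filter_subset _ _) fun h _ _ => by positivity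
    · rw [mul_sum]
      refine sum_le_sum fun h _ => ?_
      rw [mul_comm]
      refine mul_le_mul_of_nonneg_right ?_ (by positivity)
      exact pow_le_pow_left₀ (norm_nonneg _) (W_le _ _) 2
  -- major arcs
  have hmaj : ∑ h ∈ Mj, ‖A h‖ ^ 2 ≤ ∑ q ∈ Icc 1 Q, ∑ b ∈ range (q + 1),
      ∑ h ∈ (range M).filter (fun h : ℕ => |(h : ℝ) / M - (b : ℝ) / q| ≤ 1 / (8 * H)),
        ‖A h‖ ^ 2 := by
    rw [sum_sigma']
    refine cover Mj _ (fun p : (_ : ℕ) × ℕ => (range M).filter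
      (fun h : ℕ => |(h : ℝ) / M - (p.2 : ℝ) / p.1| ≤ 1 / (8 * H))) (fun h => ‖A h‖ ^ 2)
      (fun h => by positivity) ?_
    intro h hh
    rw [hMj, mem_filter, mem_range] at hh
    obtain ⟨q, hq1, hqD, b, hb⟩ := hk y D (h / M) hD hDy hh.2
    have hqQ : q ≤ Q := by
      have : (q : ℝ) ≤ Q := hqD.trans hDQ
      exact_mod_cast this
    have hq1' : (1 : ℝ) ≤ q := by exact_mod_cast hq1
    have hqQ' : (q : ℝ) ≤ Q := by exact_mod_cast hqQ
    have hb1 : |(h : ℝ) / M - b / q| ≤ Q / (y : ℝ) ^ 2 :=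
      hb.trans (div_le_div_of_nonneg_right hDQ (by positivity))
    have hsmall : (Q : ℝ) / (y : ℝ) ^ 2 < 1 / q := by
      rw [div_lt_div_iff₀ (by positivity) (by positivity), one_mul]
      have h5 : (Q : ℝ) * q ≤ Q ^ 2 := by nlinarith
      have h6 : (Q : ℝ) ^ 2 < y := by nlinarith
      nlinarith
    have hh0 : (0 : ℝ) ≤ (h : ℝ) / M := by positivity
    have hh1 : (h : ℝ) / M < 1 := by
      rw [div_lt_one hM0]
      exact_mod_cast hh.1
    rw [abs_le] at hb1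
    have hb0 : 0 ≤ b := by
      by_contra hneg
      have h7 : b ≤ -1 := by omega
      have h8 : (b : ℝ) ≤ -1 := by exact_mod_cast h7
      have h9 : (b : ℝ) / q ≤ -(1 / q) := by
        rw [← neg_div]
        exact div_le_div_of_nonneg_right h8 (by positivity)
      linarith [hb1.2]
    have hbq : b ≤ q := by
      by_contra hneg
      have h7 : (q : ℤ) + 1 ≤ b := by omega
      have h8 : (q : ℝ) + 1 ≤ b := by exact_mod_cast h7
      have h9 : 1 + 1 / (q : ℝ) ≤ b / q := by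
        rw [le_div_iff₀ (by positivity)]
        field_simp
        linarith
      linarith [hb1.1]
    refine ⟨⟨q, b.toNat⟩, ?_, ?_⟩
    · rw [mem_sigma, mem_Icc, mem_range]
      refine ⟨⟨hq1, hqQ⟩, ?_⟩
      simp only
      omega
    · rw [mem_filter, mem_range]
      refine ⟨hh.1, ?_⟩
      have h10 : ((b.toNat : ℕ) : ℝ) = (b : ℝ) := by
        have : ((b.toNat : ℕ) : ℤ) = b := Int.toNat_of_nonneg hb0
        exact_mod_cast this
      simp only
      rw [h10]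
      refine (hb.trans (div_le_div_of_nonneg_right hDQ (by positivity))).trans ?_
      rw [div_le_div_iff₀ (by positivity) (by positivity)]
      linarith
  have hgal : ∀ q ∈ Icc 1 Q, ∀ b ∈ range (q + 1),
      ∑ h ∈ (range M).filter (fun h : ℕ => |(h : ℝ) / M - (b : ℝ) / q| ≤ 1 / (8 * H)), ‖A h‖ ^ 2 ≤
      4 / (H : ℝ) ^ 2 * M * (Q * ∑ u ∈ Icc (-(H : ℤ)) N, NN a u H q) := by
    intro q hq b _
    rw [mem_Icc] at hq
    have hqQ' : (q : ℝ) ≤ Q := by exact_mod_cast hq.2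
    refine (hG M H N ((b : ℝ) / q) a hH (by omega) ha _ (filter_subset _ _) ?_).trans ?_
    · intro h hh
      exact (mem_filter.1 hh).2
    · refine mul_le_mul_of_nonneg_left ?_ (by positivity)
      rw [mul_sum]
      refine sum_le_sum fun u _ => ?_
      refine (cs a u H q b hq.1).trans ?_
      exact mul_le_mul_of_nonneg_right hqQ' (NN_nonneg _ _ _ _)
  have hmaj2 : ∑ h ∈ Mj, ‖A h‖ ^ 2 ≤
      16 * (Q : ℝ) ^ 3 / (H : ℝ) ^ 2 * M * ∑ q ∈ Icc 1 Q, ∑ u ∈ Icc (-(H : ℤ)) N, NN a u H q := by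
    refine hmaj.trans ?_
    rw [mul_sum]
    refine sum_le_sum fun q hq => ?_
    refine (sum_le_sum fun b hb => hgal q hq b hb).trans ?_
    rw [sum_const, card_range, nsmul_eq_mul]
    rw [mem_Icc] at hq
    have hqQ' : (q : ℝ) ≤ Q := by exact_mod_cast hq.2
    have hS : 0 ≤ ∑ u ∈ Icc (-(H : ℤ)) N, NN a u H q := sum_nonneg fun u _ => NN_nonneg _ _ _ _
    set Sg := ∑ u ∈ Icc (-(H : ℤ)) N, NN a u H q
    have h11 : ((q + 1 : ℕ) : ℝ) * (4 * Q) ≤ 16 * (Q : ℝ) ^ 3 := by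
      push_cast
      have h12 : ((q : ℝ) + 1) * (4 * Q) ≤ (2 * Q) * (4 * Q) := by
        refine mul_le_mul_of_nonneg_right (by linarith) (by positivity)
      have h13 : (Q : ℝ) ^ 2 ≤ Q ^ 3 := by
        refine pow_le_pow_right₀ hQ1' (by norm_num)
      nlinarith
    calc ((q + 1 : ℕ) : ℝ) * (4 / (H : ℝ) ^ 2 * M * (Q * Sg))
        = (((q + 1 : ℕ) : ℝ) * (4 * Q)) * (1 / (H : ℝ) ^ 2 * M * Sg) := by ring
      _ ≤ (16 * (Q : ℝ) ^ 3) * (1 / (H : ℝ) ^ 2 * M * Sg) := by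
          refine mul_le_mul_of_nonneg_right h11 (by positivity)
      _ = _ := by ring
  -- assembly
  calc (1 / (M : ℝ)) * ∑ h ∈ range M, ‖A h‖ ^ 2 * ‖W y (h / M)‖ ^ 2
      ≤ (1 / (M : ℝ)) * (((y : ℝ) / D) ^ 2 * ∑ h ∈ range M, ‖A h‖ ^ 2 +
          (y : ℝ) ^ 2 * ∑ h ∈ Mj, ‖A h‖ ^ 2) :=
        mul_le_mul_of_nonneg_left hsplit (by positivity)
    _ ≤ (1 / (M : ℝ)) * (((y : ℝ) / D) ^ 2 * (M * ∑ m ∈ Ioc (0 : ℤ) N, a m ^ 2) +
          (y : ℝ) ^ 2 * (16 * (Q : ℝ) ^ 3 / (H : ℝ) ^ 2 * M *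
            ∑ q ∈ Icc 1 Q, ∑ u ∈ Icc (-(H : ℤ)) N, NN a u H q)) := by
        rw [hparA]
        refine mul_le_mul_of_nonneg_left ?_ (by positivity)
        refine add_le_add le_rfl (mul_le_mul_of_nonneg_left hmaj2 (by positivity))
    _ = _ := by
        field_simp

end Pool.Agent.Helper64.AY.Exp
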