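import Pool.Agent.Helper64.AY.Stm
import Pool.Graph.R_pool_sql_team_seeded_f72693b1.Results.MP_8be758_nt.AlmostAllOddA

/-!
# Project AY (helper64): the range `X^(1/6+ε) ≤ n ≤ X^(1-ε)`
-/

set_option autoImplicit false

namespace Pool.Agent.Helper64.AY

open Finset Filter
open Pool.Agent.H442R2.EHI (evt_log_pow evt_log_ge)

/-- the final statement -/
def S_RES : Prop := ∀ θ ε : ℝ, 1 / 6 < θ → 0 < ε → ∀ U : ℕ, ∃ X0 : ℕ, ∀ X : ℕ, X0 ≤ X →
  ∃ Bad : Finset ℕ, (Bad.card : ℝ) ≤ X / (Real.log X) ^ U ∧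
    ∀ A : ℕ, 3 ≤ A → A ≤ X → Odd A → A ∉ Bad →
      ∃ K : ℝ, 0 < K ∧ Tendsto (fun N : ℕ => partialProd A N) atTop (nhds K) ∧ 1 / (8 * Real.log X) ≤ K ∧
        ∀ n : ℕ, (X : ℝ) ^ θ ≤ n → (n : ℝ) ≤ (X : ℝ) ^ (1 - ε) →
          |(P A n : ℝ) - K * LA A n| ≤ K * (n / (Real.log X) ^ U)

namespace Ext

lemma nlog_le (X : ℕ) (hX : 1 ≤ X) : ((Nat.log 2 X : ℕ) : ℝ) ≤ 2 * Real.log X := by
  have h1 : (2 : ℕ) ^ (Nat.log 2 X) ≤ X := Nat.pow_log_le_self 2 (by omega)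
  have h2 : ((2 : ℝ)) ^ (Nat.log 2 X) ≤ X := by exact_mod_cast h1
  have h3 := Real.log_le_log (by positivity) h2
  rw [Real.log_pow] at h3
  have := Real.log_two_gt_d9
  have h4 : (0 : ℝ) ≤ (Nat.log 2 X : ℕ) := Nat.cast_nonneg _
  nlinarith

open Classical in
theorem main (hS : S_FIN) : S_RES := by
  intro θ ε hθ hε U
  obtain ⟨X1, hX1⟩ := hS θ hθ (U + 3)
  obtain ⟨B, X2, hX2⟩ := Pool.Agent.Results.MP_8be758_nt.AlmostAllOddA.result 0 (U + 3)
  have hev : ∀ᶠ X : ℕ in atTop, X1 ≤ X ∧ X2 ^ 2 ≤ X ∧ 100 ≤ Real.log X ∧ 1 ≤ X ∧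
      2 ^ (U + 10) ≤ Real.log X ∧ Real.log X ^ (B + 1) ≤ (X : ℝ) ^ ε := by
    filter_upwards [eventually_ge_atTop X1, eventually_ge_atTop (X2 ^ 2), evt_log_ge 100, eventually_ge_atTop 1,
      evt_log_ge (2 ^ (U + 10)), evt_log_pow (B + 1) ε hε] with X h1 h2 h3 h4 h5 h6
    exact ⟨h1, h2, h3, h4, h5, h6⟩
  obtain ⟨X0, hX0⟩ := eventually_atTop.mp hev
  refine ⟨X0, fun X hX => ?_⟩
  obtain ⟨hXX1, hXX2, hL100, hXge1, hLU, hLB⟩ := hX0 X hX
  set L := Real.log X with hL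
  have hL0 : 0 < L := by linarith
  have hL1 : 1 ≤ L := by linarith
  have hp : ∀ n : ℕ, 0 < L ^ n := fun n => by positivity
  have hp1 : ∀ n : ℕ, 1 ≤ L ^ n := fun n => one_le_pow₀ hL1
  have hXr : (1 : ℝ) ≤ X := by exact_mod_cast hXge1
  have hXp : (0 : ℝ) < X := by linarith
  obtain ⟨Bad0, hBad0, hgood0⟩ := hX1 X hXX1
  set I := Nat.log 2 X + 1 with hI
  have key : ∀ i : ℕ, ∃ Bd : Finset ℕ, (Bd.card : ℝ) ≤ X / (L / 2) ^ (U + 3) ∧
      ((X : ℝ) ^ (1 / 2 : ℝ) ≤ ((2 ^ i : ℕ) : ℝ) → ((2 ^ i : ℕ) : ℝ) * Real.log ((2 ^ i : ℕ) : ℝ) ^ B ≤ X →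
        ∀ A : ℕ, 0 < A → A ≤ X → A ∉ Bd → Odd A → 3 ≤ A →
        ∃ K : ℝ, 0 < K ∧ Tendsto (fun N : ℕ => partialProd A N) atTop (nhds K) ∧
          ∀ y : ℕ, y ≤ 2 ^ i → |(P A y : ℝ) - K * LA A y| ≤ K * (((2 ^ i : ℕ) : ℝ) / (L / 2) ^ (U + 3))) := by
    intro i
    by_cases hc : (X : ℝ) ^ (1 / 2 : ℝ) ≤ ((2 ^ i : ℕ) : ℝ) ∧ ((2 ^ i : ℕ) : ℝ) * Real.log ((2 ^ i : ℕ) : ℝ) ^ B ≤ X
    · obtain ⟨h1, h2⟩ := hc
      set x := 2 ^ i with hx
      have hx0 : (0 : ℝ) < x := lt_of_lt_of_le (by positivity) h1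
      have hsq : (X : ℝ) ≤ (x : ℝ) ^ 2 := by
        calc (X : ℝ) = ((X : ℝ) ^ (1 / 2 : ℝ)) ^ 2 := by
              rw [← Real.rpow_natCast, ← Real.rpow_mul hXp.le]; norm_num
          _ ≤ (x : ℝ) ^ 2 := pow_le_pow_left₀ (by positivity) h1 2
      have hlx : L / 2 ≤ Real.log x := by
        have h3 := Real.log_le_log (by positivity) h1
        rw [Real.log_rpow hXp] at h3
        linarith
      have hx2 : X2 ≤ x := by
        have h4 : X ≤ x ^ 2 := by exact_mod_cast hsq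
        have h5 : X2 ^ 2 ≤ x ^ 2 := le_trans hXX2 h4
        exact (Nat.pow_le_pow_iff_left (by norm_num)).1 h5
      obtain ⟨Bd, hBd, hgd⟩ := hX2 x hx2 0 X (by push_cast; positivity) h2 (by
        rw [pow_zero, mul_one]; exact hsq)
      have hpw : (L / 2) ^ (U + 3) ≤ Real.log x ^ (U + 3) := pow_le_pow_left₀ (by positivity) hlx _
      refine ⟨Bd, hBd.trans ?_, ?_⟩
      · exact div_le_div_of_nonneg_left hXp.le (by positivity) hpw
      · intro _ _ A hA0 hAX hAB hodd hA3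
        obtain ⟨K, hK, hlim, _, hest⟩ := hgd A hA0 (by omega) hAB hodd hA3
        refine ⟨K, hK, hlim, fun y hy => (hest y hy).trans ?_⟩
        apply mul_le_mul_of_nonneg_left _ hK.le
        exact div_le_div_of_nonneg_left hx0.le (by positivity) hpw
    · refine ⟨∅, by rw [card_empty]; push_cast; positivity, fun h1 h2 => absurd ⟨h1, h2⟩ hc⟩
  choose Bd hBd hgd using key
  refine ⟨Bad0 ∪ (range (I + 1)).biUnion Bd, ?_, ?_⟩
  · have h1 : (((Bad0 ∪ (range (I + 1)).biUnion Bd).card : ℕ) : ℝ) ≤ Bad0.card + ∑ i ∈ range (I + 1), ((Bd i).card : ℝ) := by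
      have h2 := card_union_le Bad0 ((range (I + 1)).biUnion Bd)
      have h3 : ((range (I + 1)).biUnion Bd).card ≤ ∑ i ∈ range (I + 1), (Bd i).card := card_biUnion_le
      have h4 : (Bad0 ∪ (range (I + 1)).biUnion Bd).card ≤ Bad0.card + ∑ i ∈ range (I + 1), (Bd i).card := by omega
      exact_mod_cast h4
    have hI3 : (I : ℝ) + 1 ≤ 3 * L := by
      rw [hI]; push_cast
      have := nlog_le X hXge1
      linarith
    have e2 : (X : ℝ) / (L / 2) ^ (U + 3) = 2 ^ (U + 3) * (X / L ^ (U + 3)) := by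
      rw [div_pow]; field_simp
    have hq : 0 ≤ (X : ℝ) / L ^ (U + 3) := by positivity
    calc _ ≤ (Bad0.card : ℝ) + ∑ i ∈ range (I + 1), ((Bd i).card : ℝ) := h1
      _ ≤ X / L ^ (U + 3) + ∑ i ∈ range (I + 1), (X : ℝ) / (L / 2) ^ (U + 3) :=
          add_le_add hBad0 (sum_le_sum fun i _ => hBd i)
      _ = X / L ^ (U + 3) + ((I : ℝ) + 1) * (2 ^ (U + 3) * (X / L ^ (U + 3))) := by
          rw [sum_const, card_range, nsmul_eq_mul, e2]; push_cast; ring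
      _ ≤ X / L ^ (U + 3) + (3 * L) * (L * (X / L ^ (U + 3))) := by
          gcongr
          refine le_trans ?_ hLU
          exact pow_le_pow_right₀ (by norm_num) (by omega)
      _ ≤ L ^ 3 * (X / L ^ (U + 3)) := by
          have h5 : 1 + 3 * L * L ≤ L ^ 3 := by nlinarith [mul_pos hL0 hL0]
          nlinarith
      _ = X / L ^ U := by
          rw [pow_add L U 3]; field_simp
  · intro A hA3 hAX hodd hAB
    rw [mem_union, not_or] at hAB
    obtain ⟨hA0, hA1⟩ := hAB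
    obtain ⟨K, hK, hlim, hKlow, hest⟩ := hgood0 A hA3 hAX hodd hA0
    refine ⟨K, hK, hlim, hKlow, fun n hn1 hn2 => ?_⟩
    have hn0 : (0 : ℝ) ≤ n := Nat.cast_nonneg _
    by_cases hsm : (n : ℝ) ≤ (X : ℝ) ^ (1 / 2 : ℝ)
    · refine (hest n hn1 hsm).trans ?_
      apply mul_le_mul_of_nonneg_left _ hK.le
      exact div_le_div_of_nonneg_left hn0 (hp _) (pow_le_pow_right₀ hL1 (by omega))
    · rw [not_le] at hsm
      have hnpos : (0 : ℝ) < n := lt_trans (by positivity) hsm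
      have hnpos' : 0 < n := by exact_mod_cast hnpos
      set i := Nat.log 2 n + 1 with hi
      have hns : n < 2 ^ i := Nat.lt_pow_succ_log_self (by norm_num) n
      have hsn : 2 ^ i ≤ 2 * n := by
        rw [hi, pow_succ, mul_comm]
        exact Nat.mul_le_mul_left _ (Nat.pow_log_le_self 2 (by omega))
      have hnX : (n : ℝ) ≤ X := by
        refine hn2.trans ?_
        calc (X : ℝ) ^ (1 - ε) ≤ (X : ℝ) ^ (1 : ℝ) := Real.rpow_le_rpow_of_exponent_le hXr (by linarith)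
          _ = X := Real.rpow_one _
      have hiI : i < I + 1 := by
        rw [hi, hI]
        have h1 : n ≤ X := by exact_mod_cast hnX
        have := Nat.log_mono_right (b := 2) h1
        omega
      have hsr : ((2 ^ i : ℕ) : ℝ) ≤ 2 * n := by exact_mod_cast hsn
      have hns' : (n : ℝ) ≤ ((2 ^ i : ℕ) : ℝ) := by exact_mod_cast hns.le
      have hXe : (X : ℝ) ^ (1 - ε) * (X : ℝ) ^ ε = X := by
        rw [← Real.rpow_add hXp]; simp
      have h2X : ((2 ^ i : ℕ) : ℝ) * L ^ (B + 1) ≤ 2 * X := by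
        calc ((2 ^ i : ℕ) : ℝ) * L ^ (B + 1) ≤ (2 * (X : ℝ) ^ (1 - ε)) * (X : ℝ) ^ ε := by
              gcongr
              linarith
          _ = 2 * X := by rw [mul_assoc, hXe]
      have hpX : ((2 ^ i : ℕ) : ℝ) ≤ X := by
        have h3 : (2 : ℝ) ≤ L ^ (B + 1) := by
          calc (2 : ℝ) ≤ L ^ 1 := by rw [pow_one]; linarith
            _ ≤ L ^ (B + 1) := pow_le_pow_right₀ hL1 (by omega)
        have h4 : (0 : ℝ) ≤ ((2 ^ i : ℕ) : ℝ) := Nat.cast_nonneg _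
        nlinarith
      have hcond : ((2 ^ i : ℕ) : ℝ) * Real.log ((2 ^ i : ℕ) : ℝ) ^ B ≤ X := by
        have h5 : Real.log ((2 ^ i : ℕ) : ℝ) ≤ L := Real.log_le_log (by linarith) hpX
        have h6 : 0 ≤ Real.log ((2 ^ i : ℕ) : ℝ) := Real.log_natCast_nonneg _
        have h7 : ((2 ^ i : ℕ) : ℝ) * Real.log ((2 ^ i : ℕ) : ℝ) ^ B ≤ ((2 ^ i : ℕ) : ℝ) * L ^ B := by gcongr
        refine h7.trans ?_
        have h8 : ((2 ^ i : ℕ) : ℝ) * L ^ (B + 1) = L * (((2 ^ i : ℕ) : ℝ) * L ^ B) := by ring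
        rw [h8] at h2X
        have h9 : 0 ≤ ((2 ^ i : ℕ) : ℝ) * L ^ B := by positivity
        nlinarith
      have hAi : A ∉ Bd i := by
        intro hcon
        apply hA1
        rw [mem_biUnion]
        exact ⟨i, mem_range.2 hiI, hcon⟩
      obtain ⟨K', hK', hlim', hest'⟩ := hgd i (hsm.le.trans hns') hcond A (by omega) hAX hAi hodd hA3
      have hKK : K' = K := tendsto_nhds_unique hlim' hlim
      rw [hKK] at hest'
      refine (hest' n hns.le).trans ?_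
      apply mul_le_mul_of_nonneg_left _ hK.le
      calc ((2 ^ i : ℕ) : ℝ) / (L / 2) ^ (U + 3) ≤ (2 * n) / (L / 2) ^ (U + 3) := by gcongr
        _ = (2 ^ (U + 4) * n) / L ^ (U + 3) := by
            rw [div_pow]; field_simp; ring
        _ ≤ (L * n) / L ^ (U + 3) := by
            gcongr
            refine le_trans ?_ hLU
            exact pow_le_pow_right₀ (by norm_num) (by omega)
        _ ≤ (L ^ 3 * n) / L ^ (U + 3) := by
            gcongr
            calc L = L ^ 1 := (pow_one _).symm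
              _ ≤ L ^ 3 := pow_le_pow_right₀ hL1 (by norm_num)
        _ = n / L ^ U := by rw [pow_add L U 3]; field_simp

end Ext

end Pool.Agent.Helper64.AY
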