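import Pool.Agent.Helper64.AY.Stm
import Pool.Graph.R_pool_sql_team_seeded_f72693b1.Results.MP_8be758_nt.AlmostAllOddA

/-!
# Project AY, module FIN (helper37): the final theorem from (NET)
-/

set_option autoImplicit false

namespace Pool.Agent.Helper64.AY.Fin

open Finset Filter Polynomial
open Pool.Agent.H442R2.EHI (evt_log_pow evt_log_ge)
open Pool.Agent.H300R2.BH (rho SS pv lF)
open Pool.Agent.H300R2.EC
open Pool.Agent.W80.EC
open Pool.Agent.W81.R1 (gI qf pv_close const_part exc_card_short lF_le)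
open Pool.Agent.Helper64.AY

open Classical in
/-- the exceptional discriminants -/
lemma bad2 (V E U : ℕ) (hE : 320 * (4 * V + 1) ≤ E) : ∀ᶠ X : ℕ in atTop,
    ((((Icc 1 X).filter (fun c : ℕ => (1 : ℤ) ^ 2 - 4 * 1 * (c : ℤ) ∈ Exc V E X)).card : ℕ) : ℝ) ≤
      X / Real.log X ^ (U + 1) := by
  filter_upwards [exc_card_short V E hE, eventually_ge_atTop 1, evt_log_ge 4,
    evt_log_pow (U + 2) (15 / 64) (by norm_num)] with X hX hX1 hL4 hLp
  have hXr : (1 : ℝ) ≤ X := by exact_mod_cast hX1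
  have hX0 : (0 : ℝ) < X := by linarith
  set L := Real.log X with hL
  have hL0 : 0 < L := by linarith
  set S0 : Finset ℤ := (Icc 1 X).image (fun c : ℕ => (1 : ℤ) ^ 2 - 4 * 1 * (c : ℤ)) with hS0
  have h1 : S0 ⊆ Dset (5 * X ^ 2) := by
    intro D hD
    rw [hS0, mem_image] at hD
    obtain ⟨c, hc, rfl⟩ := hD
    rw [mem_Icc] at hc
    unfold Dset
    rw [mem_filter, mem_Icc]
    have h2 : (c : ℤ) ≤ X := by exact_mod_cast hc.2
    have h3 : (1 : ℤ) ≤ c := by exact_mod_cast hc.1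
    have h4 : (X : ℤ) ≤ (X : ℤ) ^ 2 := by nlinarith
    push_cast
    refine ⟨⟨by linarith, by nlinarith⟩, by omega⟩
  have h2 : ∀ b ∈ S0, ∀ b' ∈ S0, b - b' ≤ ((4 * X : ℕ) : ℤ) := by
    intro d hd d' hd'
    rw [hS0, mem_image] at hd hd'
    obtain ⟨c, hc, rfl⟩ := hd
    obtain ⟨c', hc', rfl⟩ := hd'
    rw [mem_Icc] at hc hc'
    push_cast
    omega
  have h3 := hX S0 (4 * X) h1 h2
  have h4 : ((Icc 1 X).filter (fun c : ℕ => (1 : ℤ) ^ 2 - 4 * 1 * (c : ℤ) ∈ Exc V E X)).card ≤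
      (S0.filter (fun D => D ∈ Exc V E X)).card := by
    apply card_le_card_of_injOn (fun c : ℕ => (1 : ℤ) ^ 2 - 4 * 1 * (c : ℤ))
    · intro c hc
      rw [mem_coe, mem_filter] at hc
      rw [mem_coe, mem_filter, hS0, mem_image]
      exact ⟨⟨c, hc.1, rfl⟩, hc.2⟩
    · intro c _ c' _ h
      simp only at h
      omega
  have h4' : ((((Icc 1 X).filter (fun c : ℕ => (1 : ℤ) ^ 2 - 4 * 1 * (c : ℤ) ∈ Exc V E X)).card : ℕ) : ℝ) ≤
      ((S0.filter (fun D => D ∈ Exc V E X)).card : ℝ) := by exact_mod_cast h4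
  refine h4'.trans (h3.trans ?_)
  rw [le_div_iff₀ (by positivity)]
  have h5 : Real.sqrt ((4 * X : ℕ) : ℝ) + 1 ≤ 3 * (X : ℝ) ^ (1 / 2 : ℝ) := by
    have e1 : Real.sqrt ((4 * X : ℕ) : ℝ) = 2 * (X : ℝ) ^ (1 / 2 : ℝ) := by
      rw [← Real.sqrt_eq_rpow]
      push_cast
      rw [Real.sqrt_mul (by norm_num), show (4 : ℝ) = 2 ^ 2 by norm_num, Real.sqrt_sq (by norm_num)]
    have e2 : (1 : ℝ) ≤ (X : ℝ) ^ (1 / 2 : ℝ) := Real.one_le_rpow hXr (by norm_num)
    linarith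
  calc (Real.sqrt ((4 * X : ℕ) : ℝ) + 1) * (X : ℝ) ^ (17 / 64 : ℝ) * L ^ (U + 1)
      ≤ (3 * (X : ℝ) ^ (1 / 2 : ℝ)) * (X : ℝ) ^ (17 / 64 : ℝ) * L ^ (U + 1) := by gcongr
    _ = ((X : ℝ) ^ (1 / 2 : ℝ) * (X : ℝ) ^ (17 / 64 : ℝ)) * (3 * L ^ (U + 1)) := by ring
    _ ≤ ((X : ℝ) ^ (1 / 2 : ℝ) * (X : ℝ) ^ (17 / 64 : ℝ)) * (L * L ^ (U + 1)) := by gcongr; linarith
    _ = ((X : ℝ) ^ (1 / 2 : ℝ) * (X : ℝ) ^ (17 / 64 : ℝ)) * L ^ (U + 2) := by ring
    _ ≤ ((X : ℝ) ^ (1 / 2 : ℝ) * (X : ℝ) ^ (17 / 64 : ℝ)) * (X : ℝ) ^ (15 / 64 : ℝ) := by gcongr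
    _ = X := by
        rw [← Real.rpow_add hX0, ← Real.rpow_add hX0]
        norm_num

/-- eventually in `X`, for all `n ≥ X ^ (1/6)` -/
lemma evt_n (p : ℕ → Prop) (hp : ∀ᶠ n : ℕ in atTop, p n) :
    ∀ᶠ X : ℕ in atTop, ∀ n : ℕ, (X : ℝ) ^ (1 / 6 : ℝ) ≤ n → p n := by
  obtain ⟨N, hN⟩ := eventually_atTop.mp hp
  have h1 : Tendsto (fun X : ℕ => (X : ℝ) ^ (1 / 6 : ℝ)) atTop atTop :=
    (tendsto_rpow_atTop (by norm_num)).comp tendsto_natCast_atTop_atTop
  filter_upwards [h1.eventually_ge_atTop (N : ℝ)] with X hX n hn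
  exact hN n (by exact_mod_cast hX.trans hn)

open Classical in
theorem main (h : S_NET) : S_FIN := by
  intro θ hθ U
  obtain ⟨Bz, hnet⟩ := h θ hθ (U + 1) (U + 6)
  set E := max (Bz + 1) (320 * (4 * (U + 1 + 4) + 1)) + U + 11 with hE
  have hE1 : Bz + 1 ≤ E := by
    rw [hE]; have := le_max_left (Bz + 1) (320 * (4 * (U + 1 + 4) + 1)); omega
  have hE2 : 320 * (4 * (U + 1 + 4) + 1) ≤ E := by
    rw [hE]; have := le_max_right (Bz + 1) (320 * (4 * (U + 1 + 4) + 1)); omega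
  have hE3 : U + 1 + 10 ≤ E := by rw [hE]; omega
  clear_value E
  obtain ⟨X1, hX1⟩ := hnet E
  have hcp := const_part (U + 1) E hE3
  have hb2 := bad2 (U + 1 + 4) E U hE2
  clear hE2 hE3 hE
  obtain ⟨X0, hX0⟩ := eventually_atTop.mp ((eventually_ge_atTop X1).and (hcp.and (hb2.and
    ((evt_n _ (pv_close (E + 1) (U + 4))).and ((evt_n _ (evt_log_ge (6 ^ E))).and
    ((evt_n _ (evt_log_pow (U + 4 + 3) 1 (by norm_num))).and
    ((evt_log_ge (6 ^ (U + 4))).and ((evt_log_ge 100).and ((evt_log_pow (U + 3) (1 / 6) (by norm_num)).and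
    (eventually_ge_atTop 4))))))))))
  refine ⟨X0, fun X hX => ?_⟩
  obtain ⟨hXX1, hcpX, hb2X, hpvn, hln, hlpn, hL6, hL100, hLp, hX4⟩ := hX0 X hX
  have hXr : (4 : ℝ) ≤ X := by exact_mod_cast hX4
  have hX0 : (0 : ℝ) < X := by linarith
  set L := Real.log X with hL
  have hL0 : 0 < L := by linarith
  have hL1 : 1 ≤ L := by linarith
  have hp : ∀ n : ℕ, 0 < L ^ n := fun n => by positivity
  have hp1 : ∀ n : ℕ, 1 ≤ L ^ n := fun n => one_le_pow₀ hL1
  set z := ⌊L ^ E⌋₊ with hz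
  have hzlo : L ^ Bz ≤ z := by
    have h1 : L ^ E < z + 1 := Nat.lt_floor_add_one _
    have h2 : L ^ (Bz + 1) ≤ L ^ E := pow_le_pow_right₀ hL1 hE1
    have h3 : L ^ (Bz + 1) = L ^ Bz * L := pow_succ _ _
    have h4 := hp1 Bz
    nlinarith
  have hzhi : (z : ℝ) ≤ L ^ E := Nat.floor_le (by positivity)
  have hz1 : 1 ≤ z := by exact_mod_cast (hp1 Bz).trans hzlo
  obtain ⟨Bad1, hBad1, hgood⟩ := hX1 X hXX1 z hzlo hzhi
  set Bad2 := (Icc 1 X).filter (fun c : ℕ => (1 : ℤ) ^ 2 - 4 * 1 * (c : ℤ) ∈ Exc (U + 1 + 4) E X) with hBad2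
  refine ⟨Bad1 ∪ Bad2, ?_, ?_⟩
  · have h1 : (((Bad1 ∪ Bad2).card : ℕ) : ℝ) ≤ Bad1.card + Bad2.card := by
      exact_mod_cast card_union_le Bad1 Bad2
    calc _ ≤ (Bad1.card : ℝ) + Bad2.card := h1
      _ ≤ X / L ^ (U + 1) + X / L ^ (U + 1) := add_le_add hBad1 hb2X
      _ = 2 * X / L ^ (U + 1) := by ring
      _ ≤ X / L ^ U := by
          rw [div_le_div_iff₀ (by positivity) (by positivity), pow_succ]
          have : 0 ≤ (X : ℝ) * L ^ U := by positivity
          nlinarith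
  intro A hA3 hAX hodd hAB
  rw [mem_union, not_or] at hAB
  obtain ⟨hA1, hA2⟩ := hAB
  have hsq : ¬ IsSquare ((1 : ℤ) ^ 2 - 4 * 1 * (A : ℤ)) := by
    rintro ⟨r, hr⟩
    have h1 : (0 : ℤ) ≤ r * r := mul_self_nonneg r
    omega
  have hpar : ¬ (Even ((1 : ℤ) + 1) ∧ Even (A : ℤ)) := by
    rintro ⟨-, he⟩
    rw [Int.even_coe_nat, Nat.even_iff] at he
    obtain ⟨k, hk⟩ := hodd
    omega
  have hdm : (1 : ℤ) ^ 2 - 4 * 1 * (A : ℤ) ∈ Dset (5 * X ^ 2) := by
    unfold Dset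
    rw [mem_filter, mem_Icc]
    have h2 : (A : ℤ) ≤ X := by exact_mod_cast hAX
    have h3 : (3 : ℤ) ≤ A := by exact_mod_cast hA3
    have h4 : (X : ℤ) ≤ (X : ℤ) ^ 2 := by nlinarith
    push_cast
    refine ⟨⟨by linarith, by nlinarith⟩, by omega⟩
  have hexc : (1 : ℤ) ^ 2 - 4 * 1 * (A : ℤ) ∉ Exc (U + 1 + 4) E X := by
    intro hcon
    apply hA2
    rw [hBad2, mem_filter, mem_Icc]
    exact ⟨⟨by omega, hAX⟩, hcon⟩
  obtain ⟨K, hK, hlim, hlow, hclose⟩ := hcpX 1 1 A le_rfl (by exact_mod_cast (by omega : 1 ≤ X))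
    (by simp) hsq hpar hdm hexc
  have hep : ep (1 : ℤ) 1 = 2 := by
    unfold ep
    rw [if_pos]
    decide
  have hGf : Gf (1 : ℤ) 1 = 1 := by
    unfold Gf
    have : Int.gcd (1 : ℤ) 1 = 1 := by decide
    rw [this, Nat.primeFactors_one, filter_empty, prod_empty]
  rw [hep, hGf, mul_one] at hlow hclose
  have hK4 : 1 / (4 * L) ≤ K := by
    have h1 : 1 / (4 * L) = (1 / (2 * L)) / 2 := by
      field_simp
      norm_num
    rw [h1]
    linarith
  have hprod : ∀ N : ℕ, Pc 1 (1 ^ 2 - 4 * 1 * (A : ℤ)) N = partialProd A N := by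
    intro N
    have := Pool.Agent.Results.MP_8be758_nt.AlmostAllOddA.prod_eq A N
    rw [Nat.cast_one] at this
    rw [this]
    rfl
  refine ⟨K, hK, ?_, ?_, fun n hn1 hn2 => ?_⟩
  · simp_rw [← hprod]
    exact hlim
  · refine le_trans ?_ hK4
    apply one_div_le_one_div_of_le (by positivity)
    linarith
  · -- the main estimate
    have hn6 : (X : ℝ) ^ (1 / 6 : ℝ) ≤ n :=
      (Real.rpow_le_rpow_of_exponent_le (by linarith) hθ.le).trans hn1
    have hn0 : (0 : ℝ) < n := lt_of_lt_of_le (by positivity) hn6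
    have hnX : (n : ℝ) ≤ X := by
      refine hn2.trans ?_
      calc (X : ℝ) ^ (1 / 2 : ℝ) ≤ (X : ℝ) ^ (1 : ℝ) :=
            Real.rpow_le_rpow_of_exponent_le (by linarith) (by norm_num)
        _ = X := Real.rpow_one _
    have hl1 : L / 6 ≤ Real.log n := by
      have h1 := Real.log_le_log (by positivity) hn6
      rw [Real.log_rpow hX0] at h1
      linarith
    have hl2 : Real.log n ≤ L := Real.log_le_log hn0 hnX
    have hl0 : 0 < Real.log n := by linarith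
    have hzn : (z : ℝ) ≤ Real.log n ^ (E + 1) := by
      calc (z : ℝ) ≤ L ^ E := hzhi
        _ ≤ (6 * Real.log n) ^ E := pow_le_pow_left₀ hL0.le (by linarith) _
        _ = 6 ^ E * Real.log n ^ E := by rw [mul_pow]
        _ ≤ Real.log n * Real.log n ^ E := by
            gcongr
            exact hln n hn6
        _ = Real.log n ^ (E + 1) := by ring
    have hsum : ∀ y ≤ n, |∑ m ∈ Ioc 0 y, gI z (qf 1 1 m + (A : ℤ))| ≤ n / Real.log n ^ (U + 4 + 2) := by
      intro y hy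
      refine (hgood A (by omega) hAX hA1 n hn1 hn2 y hy).trans ?_
      exact div_le_div_of_nonneg_left hn0.le (by positivity) (pow_le_pow_left₀ hl0.le hl2 _)
    have hpv := hpvn n hn6 1 1 A z le_rfl (by
      have := hlpn n hn6
      rw [Real.rpow_one] at this
      rw [Int.cast_one, abs_one, le_div_iff₀ (by positivity), one_mul]
      exact this) hz1 hzn (by simp) hsum n le_rfl
    obtain ⟨hlF0, hlF1⟩ := lF_le (q2 ((1 : ℕ) : ℤ) 1 A) n
    obtain ⟨hp1', hp2'⟩ := Pool.Agent.Results.MP_8be758_nt.AlmostAllOddA.P_eq A n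
    have hs := Pool.Agent.Results.MP_8be758_nt.AlmostAllOddA.sum_int A n hA3
    have eP : (Pool.Agent.Results.MP_8be758_nt.AlmostAllOddA.P A n : ℝ) = (P A n : ℝ) := rfl
    have eL : Pool.Agent.Results.MP_8be758_nt.AlmostAllOddA.LA A n = LA A n := rfl
    rw [eP] at hp1' hp2'
    rw [eL] at hs
    have hcl : |SS z (q2 ((1 : ℕ) : ℤ) 1 A) - 2 * K| ≤ 2 * K / (4 * L ^ (U + 1)) := by
      rw [Nat.cast_one]
      exact hclose
    generalize pv (q2 ((1 : ℕ) : ℤ) 1 A) n = pw at hpv hp1' hp2'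
    generalize lF (q2 ((1 : ℕ) : ℤ) 1 A) n = lw at hpv hs hlF0 hlF1
    generalize SS z (q2 ((1 : ℕ) : ℤ) 1 A) = sw at hpv hcl
    generalize LA A n = la at hs ⊢
    generalize (P A n : ℝ) = pa at hp1' hp2' ⊢
    have hK4' : 1 ≤ K * (4 * L) := by rwa [div_le_iff₀ (by positivity)] at hK4
    set M := K * (n / L ^ U) with hM
    have hM0 : 0 ≤ M := by positivity
    have hnL : L ^ (U + 3) ≤ n := hLp.trans hn6
    have hone : 1 ≤ M / 4 := by
      rw [hM, mul_div_assoc', div_div, le_div_iff₀ (by positivity)]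
      have h2 : 16 * (L * L ^ U) ≤ n := by
        refine le_trans ?_ hnL
        rw [pow_add]
        have h3 : 16 * L ≤ L ^ 3 := by
          have h4 : 16 ≤ L ^ 2 := by nlinarith
          calc 16 * L ≤ L ^ 2 * L := by gcongr
            _ = L ^ 3 := by ring
        calc 16 * (L * L ^ U) = (16 * L) * L ^ U := by ring
          _ ≤ L ^ 3 * L ^ U := by gcongr
          _ = _ := by ring
      calc 1 * (L ^ U * 4) ≤ (K * (4 * L)) * (L ^ U * 4) := by gcongr
        _ = K * (16 * (L * L ^ U)) := by ring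
        _ ≤ K * n := by gcongr
    have h2K : K * 2 ≤ M / 4 := by
      rw [hM, mul_div_assoc]
      apply mul_le_mul_of_nonneg_left _ hK.le
      rw [div_div, le_div_iff₀ (by positivity)]
      refine le_trans ?_ hnL
      rw [pow_add]
      have h3 : 8 ≤ L ^ 3 := by
        calc (8 : ℝ) ≤ L ^ 1 := by rw [pow_one]; linarith
          _ ≤ L ^ 3 := pow_le_pow_right₀ hL1 (by norm_num)
      calc 2 * (L ^ U * 4) = 8 * L ^ U := by ring
        _ ≤ L ^ 3 * L ^ U := by gcongr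
        _ = _ := by ring
    have ht1 : (n : ℝ) / Real.log n ^ (U + 4) ≤ M / 4 := by
      have h1 : (n : ℝ) / Real.log n ^ (U + 4) ≤ n / (L / 6) ^ (U + 4) := by
        apply div_le_div_of_nonneg_left hn0.le (by positivity)
        exact pow_le_pow_left₀ (by positivity) hl1 _
      have h2 : (n : ℝ) / (L / 6) ^ (U + 4) = n * 6 ^ (U + 4) / L ^ (U + 4) := by
        rw [div_pow, div_div_eq_mul_div]
      have h3 : (n : ℝ) * 6 ^ (U + 4) / L ^ (U + 4) ≤ n * L / L ^ (U + 4) := by gcongr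
      have h4 : (n : ℝ) * L / L ^ (U + 4) = n / L ^ (U + 3) := by
        rw [show U + 4 = (U + 3) + 1 by ring, pow_succ]
        field_simp
      have h5 : (n : ℝ) / L ^ (U + 3) ≤ (1 / (4 * L)) * (n / L ^ U) / 4 := by
        have e1 : (1 / (4 * L)) * ((n : ℝ) / L ^ U) / 4 = (n / L ^ U) * (1 / (16 * L)) := by
          field_simp
          norm_num
        have e2 : (n : ℝ) / L ^ (U + 3) = (n / L ^ U) * (1 / L ^ 3) := by
          rw [pow_add]
          field_simp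
        rw [e1, e2]
        gcongr
        have h4 : 16 ≤ L ^ 2 := by nlinarith
        calc 16 * L ≤ L ^ 2 * L := by gcongr
          _ = L ^ 3 := by ring
      have h6 : (1 / (4 * L)) * ((n : ℝ) / L ^ U) / 4 ≤ M / 4 := by
        rw [hM]
        gcongr
      linarith
    have ht2 : |(sw - 2 * K) * lw| ≤ M / 4 := by
      rw [abs_mul, abs_of_nonneg hlF0]
      calc |sw - 2 * K| * lw ≤ (2 * K / (4 * L ^ (U + 1))) * (2 * n) :=
            mul_le_mul hcl hlF1 hlF0 (by positivity)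
        _ = K * (n / L ^ U) * (1 / L) := by
            rw [pow_succ]
            field_simp
            norm_num
        _ ≤ K * (n / L ^ U) * (1 / 4) := by
            gcongr
            linarith
        _ = M / 4 := by rw [hM]; ring
    have h6 : |K * (2 * lw - la)| ≤ K * 2 := by
      rw [abs_mul, abs_of_pos hK]
      exact mul_le_mul_of_nonneg_left hs hK.le
    have e3 : pa - K * la = (pa - pw) + (pw - sw * lw) + (sw - 2 * K) * lw + K * (2 * lw - la) := by ring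
    have h7 : |pa - pw| ≤ 1 := by rw [abs_le]; constructor <;> linarith
    rw [e3]
    refine (abs_add_le _ _).trans ?_
    refine (add_le_add (abs_add_le _ _) le_rfl).trans ?_
    refine (add_le_add (add_le_add (abs_add_le _ _) le_rfl) le_rfl).trans ?_
    linarith [hpv.trans ht1]

end Pool.Agent.Helper64.AY.Fin
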