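import Pool.Agent.Helper64.AY.Stm

/-!
# The discrete Gallagher inequality (module GAL)
-/

set_option autoImplicit false

namespace Pool.Agent.Helper64.AY.Gal

open Finset
open Pool.Agent.H469R2.NK (e norm_e e_add conj_e e_zero)
open Pool.Agent.W81.R1 (rr parseval_mult)

theorem rr_one (M : ℕ) (Δ : ℤ) : rr M 1 Δ = if (M : ℤ) ∣ Δ then 1 else 0 := by
  classical
  unfold rr
  have h : (range 1 ×ˢ range 1 : Finset (ℕ × ℕ)) = {(0, 0)} := by decide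
  rw [h, filter_singleton]
  simp only [Nat.cast_zero, sub_zero, zero_sub, dvd_neg]
  split_ifs <;> simp

theorem parseval (I : Finset ℤ) (b : ℤ → ℂ) (M : ℕ) (hM : 1 ≤ M)
    (hI : ∀ i ∈ I, ∀ j ∈ I, (M : ℤ) ∣ i - j → i = j) :
    ∑ k ∈ range M, ‖∑ u ∈ I, b u * e ((u : ℝ) * ((k : ℝ) / M))‖ ^ 2 =
      M * ∑ u ∈ I, ‖b u‖ ^ 2 := by
  have h1 := parseval_mult I (fun u : ℤ => -u) b M 1 hM
  have h2 : ∀ k ∈ range M, ‖(∑ j ∈ range 1, e ((j : ℝ) * k / M)) *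
      ∑ i ∈ I, b i * e (-((((-i : ℤ)) : ℝ) * k / M))‖ ^ 2 =
      ‖∑ u ∈ I, b u * e ((u : ℝ) * ((k : ℝ) / M))‖ ^ 2 := by
    intro k _
    rw [sum_range_one, Nat.cast_zero, zero_mul, zero_div, e_zero, one_mul]
    congr 2
    refine sum_congr rfl fun i _ => ?_
    congr 2
    push_cast
    ring
  rw [sum_congr rfl h2] at h1
  have h3 : ∀ i ∈ I, ∑ i' ∈ I, (b i * (starRingEnd ℂ) (b i')) *
      (rr M 1 ((fun u : ℤ => -u) i - (fun u : ℤ => -u) i') : ℂ) = ((‖b i‖ ^ 2 : ℝ) : ℂ) := by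
    intro i hi
    rw [sum_eq_single i]
    · rw [rr_one, if_pos (by simp), Complex.mul_conj, Complex.normSq_eq_norm_sq]
      push_cast
      ring
    · intro j hj hne
      rw [rr_one, if_neg]
      · push_cast; ring
      · intro hdvd
        apply hne
        have : (M : ℤ) ∣ j - i := by
          have e1 : (fun u : ℤ => -u) i - (fun u : ℤ => -u) j = j - i := by
            show -i - -j = j - i
            ring
          rwa [e1] at hdvd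
        exact hI j hj i hi this
    · intro h; exact absurd hi h
  rw [sum_congr rfl h3] at h1
  have h4 : ((∑ k ∈ range M, ‖∑ u ∈ I, b u * e ((u : ℝ) * ((k : ℝ) / M))‖ ^ 2 : ℝ) : ℂ) =
      ((M * ∑ u ∈ I, ‖b u‖ ^ 2 : ℝ) : ℂ) := by
    rw [h1]
    push_cast
    rfl
  exact_mod_cast h4

/-- real part of `e` at small arguments -/
theorem e_re_half (t : ℝ) (h : |t| ≤ 1 / 8) : (1 / 2 : ℝ) ≤ (e t).re := by
  have hre : (e t).re = Real.cos (2 * Real.pi * t) := by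
    unfold e
    rw [Complex.exp_re]
    simp
  rw [hre, ← Real.cos_abs]
  have hpi := Real.pi_pos
  have h2 : Real.cos (Real.pi / 3) ≤ Real.cos |2 * Real.pi * t| := by
    apply Real.cos_le_cos_of_nonneg_of_le_pi
    · positivity
    · linarith
    · rw [abs_mul, abs_of_pos (by positivity : (0 : ℝ) < 2 * Real.pi)]
      nlinarith [abs_nonneg t]
  rwa [Real.cos_pi_div_three] at h2

theorem kernel (H : ℕ) (θ : ℝ) (hH : 1 ≤ H) (hθ : |θ| ≤ 1 / (8 * H)) :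
    (H : ℝ) / 2 ≤ ‖∑ s ∈ Icc (1 : ℤ) H, e (-((s : ℝ) * θ))‖ := by
  have hH0 : (0 : ℝ) < H := by exact_mod_cast hH
  have h1 : (H : ℝ) / 2 ≤ (∑ s ∈ Icc (1 : ℤ) H, e (-((s : ℝ) * θ))).re := by
    rw [Complex.re_sum]
    have h2 : ∑ s ∈ Icc (1 : ℤ) H, (1 / 2 : ℝ) = (H : ℝ) / 2 := by
      rw [sum_const, Int.card_Icc, nsmul_eq_mul]
      have : ((H : ℤ) + 1 - 1).toNat = H := by simp
      rw [this]; ring
    rw [← h2]
    refine sum_le_sum fun s hs => e_re_half _ ?_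
    rw [mem_Icc] at hs
    have hs0 : (0 : ℝ) ≤ (s : ℝ) := by exact_mod_cast (by omega : (0 : ℤ) ≤ s)
    have hsH : (s : ℝ) ≤ H := by exact_mod_cast hs.2
    rw [abs_neg, abs_mul, abs_of_nonneg hs0]
    calc (s : ℝ) * |θ| ≤ H * (1 / (8 * H)) := by gcongr
      _ = 1 / 8 := by field_simp
  exact h1.trans ((le_abs_self _).trans (Complex.abs_re_le_norm _))

theorem swap (H N : ℕ) (φ θ : ℝ) (a : ℤ → ℝ)
    (ha : ∀ m : ℤ, m ∉ Ioc (0 : ℤ) N → a m = 0) :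
    ∑ u ∈ Icc (-(H : ℤ)) N, (∑ m ∈ Ioc u (u + H), (a m : ℂ) * e ((m : ℝ) * φ)) * e ((u : ℝ) * θ) =
      (∑ m ∈ Ioc (0 : ℤ) N, (a m : ℂ) * e ((m : ℝ) * (φ + θ))) *
        ∑ s ∈ Icc (1 : ℤ) H, e (-((s : ℝ) * θ)) := by
  classical
  have h1 : ∀ u ∈ Icc (-(H : ℤ)) N,
      (∑ m ∈ Ioc u (u + H), (a m : ℂ) * e ((m : ℝ) * φ)) * e ((u : ℝ) * θ) =
      ∑ m ∈ Ioc (0 : ℤ) N, if (u < m ∧ m ≤ u + H) then
        (a m : ℂ) * e ((m : ℝ) * φ) * e ((u : ℝ) * θ) else 0 := by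
    intro u _
    rw [sum_mul, ← sum_filter]
    symm
    refine sum_subset_zero_on_sdiff (fun m hm => ?_) (fun m hm => ?_) (fun m _ => rfl)
    · rw [mem_filter] at hm
      rw [mem_Ioc]
      exact hm.2
    · rw [mem_sdiff, mem_filter, mem_Ioc] at hm
      have : m ∉ Ioc (0 : ℤ) N := fun hh => hm.2 ⟨hh, hm.1⟩
      rw [ha m this]
      push_cast
      ring
  rw [sum_congr rfl h1, sum_comm, sum_mul]
  refine sum_congr rfl fun m hm => ?_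
  rw [mem_Ioc] at hm
  rw [← sum_filter, mul_sum]
  refine sum_nbij' (fun u => m - u) (fun s => m - s) ?_ ?_ ?_ ?_ ?_
  · intro u hu
    rw [mem_filter, mem_Icc] at hu
    rw [mem_Icc]
    omega
  · intro s hs
    rw [mem_Icc] at hs
    rw [mem_filter, mem_Icc]
    omega
  · intro u _; ring
  · intro s _; ring
  · intro u _
    rw [mul_assoc, mul_assoc, ← e_add, ← e_add]
    congr 2
    push_cast
    ring

theorem main : S_GAL := by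
  intro M H N φ a hH hM ha S hS hθ
  have hH0 : (0 : ℝ) < H := by exact_mod_cast hH
  have hM1 : 1 ≤ M := by omega
  set B : ℤ → ℂ := fun u => ∑ m ∈ Ioc u (u + H), (a m : ℂ) * e ((m : ℝ) * φ) with hB
  set b : ℤ → ℂ := fun u => B u * e (-((u : ℝ) * φ)) with hb
  have hbn : ∀ u, ‖b u‖ = ‖B u‖ := by
    intro u
    rw [hb]
    simp only
    rw [norm_mul, norm_e, mul_one]
  have key : ∀ h ∈ S, ‖∑ m ∈ Ioc (0 : ℤ) N, (a m : ℂ) * e ((m : ℝ) * ((h : ℝ) / M))‖ ^ 2 ≤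
      4 / (H : ℝ) ^ 2 * ‖∑ u ∈ Icc (-(H : ℤ)) N, b u * e ((u : ℝ) * ((h : ℝ) / M))‖ ^ 2 := by
    intro h hh
    have h1 := swap H N φ ((h : ℝ) / M - φ) a ha
    have h2 : ∑ u ∈ Icc (-(H : ℤ)) N, b u * e ((u : ℝ) * ((h : ℝ) / M)) =
        ∑ u ∈ Icc (-(H : ℤ)) N, B u * e ((u : ℝ) * ((h : ℝ) / M - φ)) := by
      refine sum_congr rfl fun u _ => ?_
      rw [hb]
      simp only
      rw [mul_assoc, ← e_add]
      congr 2
      ring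
    have h3 : ∑ m ∈ Ioc (0 : ℤ) N, (a m : ℂ) * e ((m : ℝ) * (φ + ((h : ℝ) / M - φ))) =
        ∑ m ∈ Ioc (0 : ℤ) N, (a m : ℂ) * e ((m : ℝ) * ((h : ℝ) / M)) := by
      refine sum_congr rfl fun m _ => ?_
      congr 3
      ring
    rw [h3] at h1
    rw [h2, h1, norm_mul, mul_pow]
    have h4 := kernel H ((h : ℝ) / M - φ) hH (hθ h hh)
    have h5 : ((H : ℝ) / 2) ^ 2 ≤ ‖∑ s ∈ Icc (1 : ℤ) H, e (-((s : ℝ) * ((h : ℝ) / M - φ)))‖ ^ 2 := by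
      gcongr
    have h6 : 1 ≤ 4 / (H : ℝ) ^ 2 *
        ‖∑ s ∈ Icc (1 : ℤ) H, e (-((s : ℝ) * ((h : ℝ) / M - φ)))‖ ^ 2 := by
      calc (1 : ℝ) = 4 / (H : ℝ) ^ 2 * ((H : ℝ) / 2) ^ 2 := by field_simp; norm_num
        _ ≤ _ := by gcongr
    calc ‖∑ m ∈ Ioc (0 : ℤ) N, (a m : ℂ) * e ((m : ℝ) * ((h : ℝ) / M))‖ ^ 2
        = ‖∑ m ∈ Ioc (0 : ℤ) N, (a m : ℂ) * e ((m : ℝ) * ((h : ℝ) / M))‖ ^ 2 * 1 := (mul_one _).symm
      _ ≤ ‖∑ m ∈ Ioc (0 : ℤ) N, (a m : ℂ) * e ((m : ℝ) * ((h : ℝ) / M))‖ ^ 2 *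
          (4 / (H : ℝ) ^ 2 *
            ‖∑ s ∈ Icc (1 : ℤ) H, e (-((s : ℝ) * ((h : ℝ) / M - φ)))‖ ^ 2) := by gcongr
      _ = _ := by ring
  have hpar := parseval (Icc (-(H : ℤ)) N) b M hM1 (fun i hi j hj hd => by
    rw [mem_Icc] at hi hj
    have h1 : i - j = 0 := by
      refine Int.eq_zero_of_abs_lt_dvd hd ?_
      rw [abs_lt]
      constructor <;> omega
    omega)
  calc ∑ h ∈ S, ‖∑ m ∈ Ioc (0 : ℤ) N, (a m : ℂ) * e ((m : ℝ) * ((h : ℝ) / M))‖ ^ 2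
      ≤ ∑ h ∈ S, 4 / (H : ℝ) ^ 2 *
          ‖∑ u ∈ Icc (-(H : ℤ)) N, b u * e ((u : ℝ) * ((h : ℝ) / M))‖ ^ 2 := sum_le_sum key
    _ ≤ ∑ h ∈ range M, 4 / (H : ℝ) ^ 2 *
          ‖∑ u ∈ Icc (-(H : ℤ)) N, b u * e ((u : ℝ) * ((h : ℝ) / M))‖ ^ 2 :=
        sum_le_sum_of_subset_of_nonneg hS fun _ _ _ => by positivity
    _ = 4 / (H : ℝ) ^ 2 * (M * ∑ u ∈ Icc (-(H : ℤ)) N, ‖b u‖ ^ 2) := by
        rw [← mul_sum, hpar]
    _ = 4 / (H : ℝ) ^ 2 * M * ∑ u ∈ Icc (-(H : ℤ)) N, ‖B u‖ ^ 2 := by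
        rw [mul_assoc]
        congr 2
        exact sum_congr rfl fun u _ => by rw [hbn]

end Pool.Agent.Helper64.AY.Gal
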