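import Pool.Agent.Helper64.AY.Stm

/-!
# Project AY (helper64): `S_NET`
-/

set_option autoImplicit false

namespace Pool.Agent.Helper64.AY.Net

open Finset Filter
open Pool.Agent.helper24_UT (Ed)
open Pool.Agent.W81.R1 (gI gt qf gI_abs gt_abs theta_lam)
open Pool.Agent.H442R2.EHI (evt_log_pow evt_log_ge)
open Pool.Agent.H373R2.T7 (lamI lamzI lamz)

/-- the prime powers -/
noncomputable def w (m : ℕ) : ℝ := ArithmeticFunction.vonMangoldt m - (if m.Prime then Real.log m else 0)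

lemma w_nonneg (m : ℕ) : 0 ≤ w m := by
  unfold w
  split_ifs with hp
  · rw [ArithmeticFunction.vonMangoldt_apply_prime hp]; simp
  · rw [sub_zero]; exact ArithmeticFunction.vonMangoldt_nonneg

lemma gI_eq (z : ℕ) (v : ℤ) (hv : 1 ≤ v) : gI z v = Ed z v - w v.toNat := by
  unfold Pool.Agent.W81.R1.gI Pool.Agent.helper24_UT.Ed Pool.Agent.H373R2.T7.lamI
    Pool.Agent.H373R2.T7.lamzI Pool.Agent.W81.R1.gt w
  rw [if_pos hv, if_pos hv, if_pos hv]
  ring

lemma sum_w (N y X : ℕ) (hN : y ^ 2 + y + X ≤ N) :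
    ∑ c ∈ range (X + 1), ∑ n ∈ Ioc 0 y, w (n ^ 2 + n + c) ≤ y * (2 * Real.sqrt N * Real.log N) := by
  rw [sum_comm]
  have h1 : ∀ n ∈ Ioc 0 y, ∑ c ∈ range (X + 1), w (n ^ 2 + n + c) ≤ 2 * Real.sqrt N * Real.log N := by
    intro n hn
    rw [mem_Ioc] at hn
    have h2 : ∑ c ∈ range (X + 1), w (n ^ 2 + n + c) = ∑ m ∈ (range (X + 1)).image (fun c => n ^ 2 + n + c), w m := by
      rw [sum_image]
      intro a _ b _ h
      simpa using h
    rw [h2]
    have h3 : (range (X + 1)).image (fun c => n ^ 2 + n + c) ⊆ Icc 1 N := by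
      intro m hm
      rw [mem_image] at hm
      obtain ⟨c, hc, rfl⟩ := hm
      rw [mem_range] at hc
      rw [mem_Icc]
      have h4 : n ^ 2 ≤ y ^ 2 := Nat.pow_le_pow_left hn.2 2
      constructor
      · omega
      · omega
    refine (sum_le_sum_of_subset_of_nonneg h3 fun m _ _ => w_nonneg m).trans ?_
    refine le_trans (sum_le_sum fun m _ => le_abs_self _) (theta_lam N)
  refine (sum_le_sum h1).trans ?_
  rw [sum_const, Nat.card_Ioc, Nat.sub_zero, nsmul_eq_mul]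

lemma markov (s : Finset ℕ) (f : ℕ → ℝ) (hf : ∀ c, 0 ≤ f c) (t : ℝ) (ht : 0 < t) :
    ((s.filter (fun c => t < f c)).card : ℝ) ≤ (∑ c ∈ s, f c) / t := by
  rw [le_div_iff₀ ht]
  calc ((s.filter (fun c => t < f c)).card : ℝ) * t = ∑ c ∈ s.filter (fun c => t < f c), t := by
        rw [sum_const, nsmul_eq_mul]
    _ ≤ ∑ c ∈ s.filter (fun c => t < f c), f c := by
        refine sum_le_sum fun c hc => ?_
        rw [mem_filter] at hc
        exact hc.2.le
    _ ≤ ∑ c ∈ s, f c := sum_le_sum_of_subset_of_nonneg (filter_subset _ _) fun c _ _ => hf c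

lemma nlog_le (X : ℕ) (hX : 1 ≤ X) : ((Nat.log 2 X : ℕ) : ℝ) ≤ 2 * Real.log X := by
  have h1 : (2 : ℕ) ^ (Nat.log 2 X) ≤ X := Nat.pow_log_le_self 2 (by omega)
  have h2 : ((2 : ℝ)) ^ (Nat.log 2 X) ≤ X := by exact_mod_cast h1
  have h3 := Real.log_le_log (by positivity) h2
  rw [Real.log_pow] at h3
  have := Real.log_two_gt_d9
  have h4 : (0 : ℝ) ≤ (Nat.log 2 X : ℕ) := Nat.cast_nonneg _
  nlinarith

/-- one length -/
lemma one_len (z X g U V : ℕ) (L : ℝ) (hLd : L = Real.log X) (hL : 1000 ≤ L) (hg : 1 ≤ g)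
    (hgX : (g : ℝ) ≤ (X : ℝ) ^ (1 / 2 : ℝ)) (hpow : L ^ (U + 2 * V + 8) ≤ (X : ℝ) ^ (1 / 2 : ℝ)) (hX : 1 ≤ X)
    (hsec : ∑ c ∈ range (X + 1), (∑ n ∈ Ioc 0 g, Ed z ((n : ℤ) ^ 2 + n + c)) ^ 2 ≤
      X * (g : ℝ) ^ 2 / L ^ (U + 3 * V + 8)) :
    (((range (X + 1)).filter (fun c : ℕ => (g : ℝ) / (2 * L ^ V) < |∑ n ∈ Ioc 0 g, gI z (qf 1 1 n + c)|)).card : ℝ) ≤
      X / (2 * L ^ (U + V + 6)) := by
  have hL0 : 0 < L := by linarith
  have hL1 : 1 ≤ L := by linarith
  have hp : ∀ n : ℕ, 0 < L ^ n := fun n => by positivity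
  have hp1 : ∀ n : ℕ, 1 ≤ L ^ n := fun n => one_le_pow₀ hL1
  have hXr : (1 : ℝ) ≤ X := by exact_mod_cast hX
  have hX0 : (0 : ℝ) < X := by linarith
  have hg0 : (0 : ℝ) < g := by exact_mod_cast hg
  set S1 : ℕ → ℝ := fun c => ∑ n ∈ Ioc 0 g, Ed z ((n : ℤ) ^ 2 + n + c) with hS1
  set S2 : ℕ → ℝ := fun c => ∑ n ∈ Ioc 0 g, w (n ^ 2 + n + c) with hS2
  have hS2n : ∀ c, 0 ≤ S2 c := fun c => sum_nonneg fun n _ => w_nonneg _
  have hdec : ∀ c : ℕ, ∑ n ∈ Ioc 0 g, gI z (qf 1 1 n + c) = S1 c - S2 c := by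
    intro c
    simp only [hS1, hS2]
    rw [← sum_sub_distrib]
    refine sum_congr rfl fun n hn => ?_
    rw [mem_Ioc] at hn
    have h1 : qf 1 1 n + (c : ℤ) = (n : ℤ) ^ 2 + n + c := by
      unfold Pool.Agent.W81.R1.qf
      push_cast; ring
    have h2 : (n : ℤ) ^ 2 + n + c = ((n ^ 2 + n + c : ℕ) : ℤ) := by push_cast; ring
    rw [h1, gI_eq z _ (by rw [h2]; have : 1 ≤ n ^ 2 + n + c := by omega
                          exact_mod_cast this)]
    rw [h2, Int.toNat_natCast]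
  have hN : g ^ 2 + g + X ≤ 3 * X := by
    have h1 : (g : ℝ) ^ 2 ≤ X := by
      calc (g : ℝ) ^ 2 ≤ ((X : ℝ) ^ (1 / 2 : ℝ)) ^ 2 := pow_le_pow_left₀ hg0.le hgX 2
        _ = X := by rw [← Real.rpow_natCast, ← Real.rpow_mul hX0.le]; norm_num
    have h2 : g ^ 2 ≤ X := by exact_mod_cast h1
    have h3 : g ≤ g ^ 2 := by nlinarith
    omega
  have hw := sum_w (3 * X) g X hN
  -- split
  have hsub : (range (X + 1)).filter (fun c : ℕ => (g : ℝ) / (2 * L ^ V) < |∑ n ∈ Ioc 0 g, gI z (qf 1 1 n + c)|) ⊆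
      (range (X + 1)).filter (fun c : ℕ => ((g : ℝ) / (4 * L ^ V)) ^ 2 < (S1 c) ^ 2) ∪
      (range (X + 1)).filter (fun c : ℕ => (g : ℝ) / (4 * L ^ V) < S2 c) := by
    intro c hc
    rw [mem_filter] at hc
    rw [mem_union, mem_filter, mem_filter]
    by_contra hcon
    push Not at hcon
    have h1 := hcon.1 hc.1
    have h2 := hcon.2 hc.1
    have h3 : |S1 c| ≤ (g : ℝ) / (4 * L ^ V) := by
      exact abs_le_of_sq_le_sq h1 (by positivity)
    have h4 := hc.2
    rw [hdec c] at h4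
    have h5 : |S1 c - S2 c| ≤ |S1 c| + |S2 c| := abs_sub _ _
    rw [abs_of_nonneg (hS2n c)] at h5
    have h6 : (g : ℝ) / (2 * L ^ V) = g / (4 * L ^ V) + g / (4 * L ^ V) := by
      field_simp; norm_num
    linarith
  have hc1 : (((range (X + 1)).filter (fun c : ℕ => ((g : ℝ) / (4 * L ^ V)) ^ 2 < (S1 c) ^ 2)).card : ℝ) ≤
      X / (4 * L ^ (U + V + 6)) := by
    refine (markov _ (fun c => (S1 c) ^ 2) (fun c => sq_nonneg _) _ (by positivity)).trans ?_
    rw [div_le_iff₀ (by positivity)]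
    refine hsec.trans ?_
    have e1 : X / (4 * L ^ (U + V + 6)) * ((g : ℝ) / (4 * L ^ V)) ^ 2 = X * (g : ℝ) ^ 2 / (64 * L ^ (U + 3 * V + 6)) := by
      rw [div_pow, mul_pow, ← pow_mul, div_mul_div_comm]
      congr 1
      rw [show U + 3 * V + 6 = (U + V + 6) + V * 2 by ring, pow_add L (U + V + 6)]
      ring
    rw [e1]
    apply div_le_div_of_nonneg_left (by positivity) (by positivity)
    calc 64 * L ^ (U + 3 * V + 6) ≤ L ^ 2 * L ^ (U + 3 * V + 6) := by
          gcongr; nlinarith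
      _ = L ^ (U + 3 * V + 8) := by ring
  have hc2 : (((range (X + 1)).filter (fun c : ℕ => (g : ℝ) / (4 * L ^ V) < S2 c)).card : ℝ) ≤
      X / (4 * L ^ (U + V + 6)) := by
    refine (markov _ S2 hS2n _ (by positivity)).trans ?_
    rw [div_le_iff₀ (by positivity)]
    refine hw.trans ?_
    have hs : Real.sqrt ((3 * X : ℕ) : ℝ) ≤ 2 * (X : ℝ) ^ (1 / 2 : ℝ) := by
      rw [← Real.sqrt_eq_rpow]
      push_cast
      calc Real.sqrt (3 * X) ≤ Real.sqrt (2 ^ 2 * X) := Real.sqrt_le_sqrt (by linarith)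
        _ = 2 * Real.sqrt X := by
            rw [Real.sqrt_mul (by norm_num), Real.sqrt_sq (by norm_num)]
    have hl : Real.log ((3 * X : ℕ) : ℝ) ≤ 2 * L := by
      push_cast
      rw [Real.log_mul (by norm_num) (by positivity), ← hLd]
      have : Real.log 3 ≤ 2 := by
        have := Real.log_le_sub_one_of_pos (show (0 : ℝ) < 3 by norm_num)
        linarith
      linarith
    have hl0 : 0 ≤ Real.log ((3 * X : ℕ) : ℝ) := Real.log_natCast_nonneg _
    set R := (X : ℝ) ^ (1 / 2 : ℝ) with hR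
    have hR0 : 0 < R := by positivity
    have hRR : R * R = X := by
      rw [hR, ← Real.rpow_add hX0]; norm_num
    have e2 : X / (4 * L ^ (U + V + 6)) * ((g : ℝ) / (4 * L ^ V)) = g * (R * (R / (16 * L ^ (U + 2 * V + 6)))) := by
      rw [show U + 2 * V + 6 = (U + V + 6) + V by ring, pow_add L (U + V + 6), ← hRR]
      field_simp
      norm_num
    rw [e2]
    apply mul_le_mul_of_nonneg_left _ hg0.le
    have h7 : 8 * L ≤ R / (16 * L ^ (U + 2 * V + 6)) := by
      rw [le_div_iff₀ (by positivity)]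
      refine le_trans ?_ hpow
      calc 8 * L * (16 * L ^ (U + 2 * V + 6)) = 128 * (L * L ^ (U + 2 * V + 6)) := by ring
        _ ≤ L * (L * L ^ (U + 2 * V + 6)) := by gcongr; linarith
        _ = L ^ (U + 2 * V + 8) := by ring
    calc 2 * Real.sqrt ((3 * X : ℕ) : ℝ) * Real.log ((3 * X : ℕ) : ℝ) ≤ 2 * (2 * R) * (2 * L) := by gcongr
      _ = R * (8 * L) := by ring
      _ ≤ _ := by gcongr
  have hcard := (card_le_card hsub).trans (card_union_le _ _)
  have hcard' : (((range (X + 1)).filter (fun c : ℕ => (g : ℝ) / (2 * L ^ V) < |∑ n ∈ Ioc 0 g, gI z (qf 1 1 n + c)|)).card : ℝ) ≤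
      (((range (X + 1)).filter (fun c : ℕ => ((g : ℝ) / (4 * L ^ V)) ^ 2 < (S1 c) ^ 2)).card : ℝ) +
      (((range (X + 1)).filter (fun c : ℕ => (g : ℝ) / (4 * L ^ V) < S2 c)).card : ℝ) := by exact_mod_cast hcard
  refine hcard'.trans ((add_le_add hc1 hc2).trans (le_of_eq ?_))
  field_simp
  norm_num

theorem main (hS : S_SEC) : S_NET := by
  intro θ hθ U V
  obtain ⟨θ', hθ'1, hθ'2⟩ : ∃ θ' : ℝ, 1 / 6 < θ' ∧ θ' < θ := ⟨(θ + 1 / 6) / 2, by linarith, by linarith⟩
  obtain ⟨Bz, hBz⟩ := hS θ' hθ'1 (U + 3 * V + 8)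
  refine ⟨Bz, fun E => ?_⟩
  obtain ⟨X1, hX1⟩ := hBz E
  obtain ⟨N2, hN2⟩ := gt_abs E
  have hev : ∀ᶠ X : ℕ in atTop, X1 ≤ X ∧ N2 ≤ X ∧ 1000 ≤ Real.log X ∧ 1 ≤ X ∧
      Real.log X ^ (U + 2 * V + 8) ≤ (X : ℝ) ^ (1 / 2 : ℝ) ∧ Real.log X ^ (V + 3) ≤ (X : ℝ) ^ (θ - θ') ∧
      Real.log X ^ (V + 3) ≤ (X : ℝ) ^ θ := by
    filter_upwards [eventually_ge_atTop X1, eventually_ge_atTop N2, evt_log_ge 1000, eventually_ge_atTop 1,
      evt_log_pow (U + 2 * V + 8) (1 / 2) (by norm_num), evt_log_pow (V + 3) (θ - θ') (by linarith),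
      evt_log_pow (V + 3) θ (by linarith)] with X h1 h2 h3 h4 h5 h6 h7
    exact ⟨h1, h2, h3, h4, h5, h6, h7⟩
  obtain ⟨X0, hX0⟩ := eventually_atTop.mp hev
  refine ⟨X0, fun X hX z hz hzE => ?_⟩
  obtain ⟨hXX1, hXN2, hL1000, hXge1, hpow, hpθ, hpθ2⟩ := hX0 X hX
  have hsec := hX1 X hXX1 z hz hzE
  set L := Real.log X with hL
  have hL0 : 0 < L := by linarith
  have hL1 : 1 ≤ L := by linarith
  have hp : ∀ n : ℕ, 0 < L ^ n := fun n => by positivity
  have hp1 : ∀ n : ℕ, 1 ≤ L ^ n := fun n => one_le_pow₀ hL1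
  have hXr : (1 : ℝ) ≤ X := by exact_mod_cast hXge1
  have hXp : (0 : ℝ) < X := by linarith
  have hz1 : 1 ≤ z := by
    have h1 : (1 : ℝ) ≤ L ^ Bz := hp1 _
    exact_mod_cast h1.trans hz
  have hl3 : Real.log ((3 * X : ℕ) : ℝ) ≤ 2 * L := by
    push_cast
    rw [Real.log_mul (by norm_num) (by positivity)]
    have : Real.log 3 ≤ 2 := by
      have := Real.log_le_sub_one_of_pos (show (0 : ℝ) < 3 by norm_num)
      linarith
    linarith
  have hl3' : L ≤ Real.log ((3 * X : ℕ) : ℝ) := by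
    apply Real.log_le_log hXp
    push_cast; linarith
  have habs : ∀ n : ℕ, 1 ≤ n → n ≤ 3 * X → |gt z n| ≤ Real.log ((3 * X : ℕ) : ℝ) :=
    hN2 (3 * X) (by omega) z hz1 (hzE.trans (pow_le_pow_left₀ hL0.le hl3' _))
  set R := ⌈L ^ (V + 3)⌉₊ with hR
  have hRge : L ^ (V + 3) ≤ R := Nat.le_ceil _
  have hRlt : (R : ℝ) ≤ 2 * L ^ (V + 3) := by
    have h1 : (R : ℝ) < L ^ (V + 3) + 1 := Nat.ceil_lt_add_one (by positivity)
    have := hp1 (V + 3)
    linarith
  have hR1 : 1 ≤ R := by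
    have : (1 : ℝ) ≤ R := (hp1 _).trans hRge
    exact_mod_cast this
  have hR0 : (0 : ℝ) < R := by exact_mod_cast hR1
  set S : ℕ → ℕ → ℝ := fun c y => ∑ n ∈ Ioc 0 y, gI z (qf 1 1 n + c) with hSd
  set I := Nat.log 2 X + 1 with hI
  set G : Finset ℕ := ((range (I + 1) ×ˢ range (R + 1)).image (fun p : ℕ × ℕ => 2 ^ p.1 * p.2 / R)).filter
    (fun g : ℕ => (X : ℝ) ^ θ' ≤ g ∧ (g : ℝ) ≤ (X : ℝ) ^ (1 / 2 : ℝ)) with hG
  have hθ'pos : 0 < θ' := by linarith
  have hXθ' : 1 ≤ (X : ℝ) ^ θ' := Real.one_le_rpow hXr hθ'pos.le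
  refine ⟨G.biUnion (fun g => (range (X + 1)).filter (fun c : ℕ => (g : ℝ) / (2 * L ^ V) < |S c g|)), ?_, ?_⟩
  · have hGc : (G.card : ℝ) ≤ L ^ (V + 5) := by
      have h1 : G.card ≤ (I + 1) * (R + 1) := by
        refine (card_filter_le _ _).trans (card_image_le.trans ?_)
        rw [card_product, card_range, card_range]
      have h2 : (G.card : ℝ) ≤ ((I : ℝ) + 1) * (R + 1) := by exact_mod_cast h1
      have h3 : (I : ℝ) ≤ 2 * L + 1 := by
        rw [hI]; push_cast
        have := nlog_le X hXge1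
        linarith
      have h4 := hp1 (V + 3)
      calc (G.card : ℝ) ≤ ((I : ℝ) + 1) * (R + 1) := h2
        _ ≤ (3 * L) * (3 * L ^ (V + 3)) := by
            gcongr
            · linarith
            · linarith
        _ = 9 * L * L ^ (V + 3) := by ring
        _ ≤ (L * L) * L ^ (V + 3) := by gcongr; linarith
        _ = L ^ (V + 5) := by ring
    calc ((G.biUnion (fun g => (range (X + 1)).filter (fun c : ℕ => (g : ℝ) / (2 * L ^ V) < |S c g|))).card : ℝ)
        ≤ ∑ g ∈ G, ((((range (X + 1)).filter (fun c : ℕ => (g : ℝ) / (2 * L ^ V) < |S c g|)).card : ℕ) : ℝ) := by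
          exact_mod_cast card_biUnion_le
      _ ≤ ∑ g ∈ G, (X : ℝ) / (2 * L ^ (U + V + 6)) := by
          refine sum_le_sum fun g hg => ?_
          rw [hG, mem_filter] at hg
          obtain ⟨_, hg1, hg2⟩ := hg
          have hg0 : 1 ≤ g := by exact_mod_cast hXθ'.trans hg1
          exact one_len z X g U V L hL hL1000 hg0 hg2 hpow hXge1 (hsec g hg1 hg2)
      _ = (G.card : ℝ) * (X / (2 * L ^ (U + V + 6))) := by rw [sum_const, nsmul_eq_mul]
      _ ≤ L ^ (V + 5) * (X / (2 * L ^ (U + V + 6))) := by gcongr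
      _ = X / (2 * L * L ^ U) := by
          rw [show U + V + 6 = (V + 5) + (U + 1) by ring, pow_add L (V + 5), pow_succ L U]
          field_simp
      _ ≤ X / L ^ U := by
          apply div_le_div_of_nonneg_left hXp.le (hp _)
          nlinarith [hp U]
  · intro c hc1 hcX hcB x hx1 hx2 y hyx
    have hx0' : 1 ≤ (x : ℝ) := by
      refine le_trans ?_ hx1
      exact Real.one_le_rpow hXr (by linarith)
    have hxpos : 0 < x := by exact_mod_cast (by linarith : (0 : ℝ) < x)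
    have hxr0 : (0 : ℝ) < x := by linarith
    have hyxr : (y : ℝ) ≤ x := by exact_mod_cast hyx
    -- pointwise bound
    have hx2' : x ^ 2 ≤ X := by
      have h1 : (x : ℝ) ^ 2 ≤ X := by
        calc (x : ℝ) ^ 2 ≤ ((X : ℝ) ^ (1 / 2 : ℝ)) ^ 2 := pow_le_pow_left₀ hxr0.le hx2 2
          _ = X := by rw [← Real.rpow_natCast, ← Real.rpow_mul hXp.le]; norm_num
      exact_mod_cast h1
    have hpt : ∀ n ∈ Ioc 0 y, |gI z (qf 1 1 n + c)| ≤ 2 * L := by
      intro n hn
      rw [mem_Ioc] at hn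
      refine (gI_abs z (3 * X) (Real.log ((3 * X : ℕ) : ℝ)) (by linarith) habs _ ?_).trans hl3
      unfold Pool.Agent.W81.R1.qf
      have h1 : n ^ 2 ≤ x ^ 2 := Nat.pow_le_pow_left (by omega) 2
      have h2 : n ≤ n ^ 2 := by nlinarith
      have h3 : n ^ 2 + n + c ≤ 3 * X := by omega
      push_cast
      have h4 : ((n ^ 2 + n + c : ℕ) : ℤ) ≤ ((3 * X : ℕ) : ℤ) := by exact_mod_cast h3
      push_cast at h4
      linarith
    have htriv : ∀ u ≤ y, |S c y - S c u| ≤ ((y : ℝ) - u) * (2 * L) := by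
      intro u hu
      have e1 : S c y - S c u = ∑ n ∈ Ioc u y, gI z (qf 1 1 n + c) := by
        simp only [hSd]
        rw [sub_eq_iff_eq_add, ← sum_union]
        · congr 1
          ext n
          simp only [mem_Ioc, mem_union]
          omega
        · rw [disjoint_left]
          intro n hn hn2
          rw [mem_Ioc] at hn hn2
          omega
      rw [e1]
      refine (abs_sum_le_sum_abs _ _).trans ?_
      calc ∑ n ∈ Ioc u y, |gI z (qf 1 1 n + c)| ≤ ∑ n ∈ Ioc u y, 2 * L := by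
            refine sum_le_sum fun n hn => ?_
            apply hpt
            rw [mem_Ioc] at hn ⊢
            omega
        _ = ((y : ℝ) - u) * (2 * L) := by
            rw [sum_const, Nat.card_Ioc, nsmul_eq_mul, Nat.cast_sub hu]
    have hsmall : 2 * L * (X : ℝ) ^ θ' ≤ x / (2 * L ^ V) := by
      rw [le_div_iff₀ (by positivity)]
      refine le_trans ?_ hx1
      calc 2 * L * (X : ℝ) ^ θ' * (2 * L ^ V) = (X : ℝ) ^ θ' * (4 * L ^ (V + 1)) := by ring
        _ ≤ (X : ℝ) ^ θ' * L ^ (V + 3) := by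
            gcongr
            calc 4 * L ^ (V + 1) ≤ L ^ 2 * L ^ (V + 1) := by gcongr; nlinarith
              _ = L ^ (V + 3) := by ring
        _ ≤ (X : ℝ) ^ θ' * (X : ℝ) ^ (θ - θ') := by gcongr
        _ = (X : ℝ) ^ θ := by rw [← Real.rpow_add hXp]; congr 1; ring
    -- the scale
    set i := Nat.log 2 x + 1 with hi
    set s := 2 ^ i with hs
    have hxs : x < s := Nat.lt_pow_succ_log_self (by norm_num) x
    have hsx : s ≤ 2 * x := by
      rw [hs, hi, pow_succ, mul_comm]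
      exact Nat.mul_le_mul_left _ (Nat.pow_log_le_self 2 (by omega))
    have hiI : i ≤ I := by
      rw [hi, hI]
      have : x ≤ X := by nlinarith
      have := Nat.log_mono_right (b := 2) this
      omega
    have hspos : 0 < s := by omega
    set j := y * R / s with hj
    have h1 : s * j ≤ y * R := by rw [hj]; exact Nat.mul_div_le _ _
    have h2 : y * R < s * (j + 1) := by rw [hj]; exact Nat.lt_mul_div_succ _ hspos
    have hjR : j ≤ R := by
      rw [hj]
      apply Nat.div_le_of_le_mul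
      exact Nat.mul_le_mul_right _ (by omega)
    set yj := s * j / R with hyj
    have h3 : yj ≤ y := by
      rw [hyj]
      apply Nat.div_le_of_le_mul
      rw [mul_comm R y]; exact h1
    have h4 : s * j < R * (yj + 1) := by
      rw [hyj]
      exact Nat.lt_mul_div_succ _ (by omega)
    have h4r : (s : ℝ) * j < R * (yj + 1) := by exact_mod_cast h4
    have h2r : (y : ℝ) * R < s * (j + 1) := by exact_mod_cast h2
    have hsr : (s : ℝ) ≤ 2 * x := by exact_mod_cast hsx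
    have hdiff : (y : ℝ) - yj ≤ 2 * x / R + 1 := by
      rw [← sub_le_iff_le_add, le_div_iff₀ hR0]
      nlinarith
    have hyjr : (yj : ℝ) ≤ y := by exact_mod_cast h3
    have hSj : |S c yj| ≤ x / (2 * L ^ V) := by
      by_cases hbig : (X : ℝ) ^ θ' ≤ yj
      · by_contra hcon
        rw [not_le] at hcon
        apply hcB
        rw [mem_biUnion]
        refine ⟨yj, ?_, ?_⟩
        · rw [hG, mem_filter, mem_image]
          refine ⟨⟨(i, j), ?_, rfl⟩, hbig, ?_⟩
          · rw [mem_product, mem_range, mem_range]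
            exact ⟨by omega, by omega⟩
          · linarith
        · rw [mem_filter, mem_range]
          refine ⟨by omega, lt_of_le_of_lt ?_ hcon⟩
          gcongr
          linarith
      · rw [not_le] at hbig
        have h5 : |S c yj| ≤ yj * (2 * L) := by
          simp only [hSd]
          refine (abs_sum_le_sum_abs _ _).trans ?_
          calc ∑ n ∈ Ioc 0 yj, |gI z (qf 1 1 n + c)| ≤ ∑ n ∈ Ioc 0 yj, 2 * L := by
                refine sum_le_sum fun n hn => ?_
                apply hpt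
                rw [mem_Ioc] at hn ⊢
                omega
            _ = yj * (2 * L) := by rw [sum_const, Nat.card_Ioc, nsmul_eq_mul, Nat.sub_zero]
        refine h5.trans (le_trans ?_ hsmall)
        nlinarith
    have hfin : (2 * x / (R : ℝ) + 1) * (2 * L) ≤ x / (2 * L ^ V) := by
      have e1 : 2 * (x : ℝ) / R ≤ 2 * x / L ^ (V + 3) := by gcongr
      have e2 : (1 : ℝ) ≤ x / L ^ (V + 3) := by
        rw [one_le_div (hp _)]
        exact hpθ2.trans hx1
      calc (2 * x / (R : ℝ) + 1) * (2 * L) ≤ (2 * x / L ^ (V + 3) + x / L ^ (V + 3)) * (2 * L) := by gcongr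
        _ = 12 / L ^ 2 * (x / (2 * L ^ V)) := by
            rw [pow_add L V 3]
            field_simp
            ring
        _ ≤ 1 * (x / (2 * L ^ V)) := by
            gcongr
            rw [div_le_one (by positivity)]
            nlinarith
        _ = _ := one_mul _
    have hrest := htriv yj h3
    calc |∑ n ∈ Ioc 0 y, gI z (qf 1 1 n + c)| = |(S c y - S c yj) + S c yj| := by
          congr 1; simp only [hSd]; ring
      _ ≤ |S c y - S c yj| + |S c yj| := abs_add_le _ _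
      _ ≤ ((y : ℝ) - yj) * (2 * L) + x / (2 * L ^ V) := add_le_add hrest hSj
      _ ≤ (2 * x / (R : ℝ) + 1) * (2 * L) + x / (2 * L ^ V) := by gcongr
      _ ≤ x / (2 * L ^ V) + x / (2 * L ^ V) := by gcongr
      _ = x / L ^ V := by field_simp; ring

end Pool.Agent.Helper64.AY.Net
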