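import Pool.Agent.Helper64.AY.Stm

/-!
# SEC (helper50): the second moment for the primes minus their sieve model
-/

set_option autoImplicit false

namespace Pool.Agent.Helper64.AY.Sec

open Finset Filter
open Pool.Agent.helper24_UT (NN Ed)
open Pool.Agent.Helper64.AY
open Pool.Agent.H373R2.T7 (lamI lamzI lamz Vz pz lamz_nonneg Vz_pos Vz_inv_small)

theorem ev_pow (n : ℕ) (s : ℝ) (hs : 0 < s) : ∃ N0 : ℕ, ∀ X : ℕ, N0 ≤ X →
    Real.log X ^ n ≤ (X : ℝ) ^ s := by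
  have h := (isLittleO_log_rpow_rpow_atTop (s := s) ((n : ℕ) : ℝ) hs).bound one_pos
  have h2 : ∀ᶠ X : ℕ in atTop, Real.log X ^ n ≤ (X : ℝ) ^ s := by
    filter_upwards [(tendsto_natCast_atTop_atTop (R := ℝ)).eventually h] with X hX
    have hl : 0 ≤ Real.log X := Real.log_natCast_nonneg X
    rw [Real.rpow_natCast, Real.norm_eq_abs, Real.norm_eq_abs, one_mul,
      abs_of_nonneg (by positivity), abs_of_nonneg (by positivity)] at hX
    exact hX
  exact eventually_atTop.1 h2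

theorem ev_log (C : ℝ) : ∃ N0 : ℕ, ∀ X : ℕ, N0 ≤ X → C ≤ Real.log X := by
  have h := (Real.tendsto_log_atTop.comp (tendsto_natCast_atTop_atTop (R := ℝ))).eventually
    (eventually_ge_atTop C)
  exact eventually_atTop.1 h

theorem Ed_abs (E : ℕ) : ∃ N0 : ℕ, ∀ N : ℕ, N0 ≤ N → ∀ z : ℕ, 1 ≤ z →
    (z : ℝ) ≤ Real.log N ^ E → ∀ m : ℤ, m ≤ N → |Ed z m| ≤ Real.log N := by
  obtain ⟨N0, h0⟩ := Vz_inv_small E
  refine ⟨N0, fun N hN z hz hzE m hm => ?_⟩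
  unfold Ed lamI lamzI
  by_cases h1 : 1 ≤ m
  · rw [if_pos h1, if_pos h1]
    have h2 := h0 N hN z hz hzE
    have h3 := Pool.Agent.W81.R1.lamz_le' z m.toNat
    have h4 := lamz_nonneg z m.toNat
    have h5 : 1 ≤ m.toNat := by omega
    have h6 : m.toNat ≤ N := by omega
    have h7 : Real.log m.toNat ≤ Real.log N :=
      Real.log_le_log (by exact_mod_cast h5) (by exact_mod_cast h6)
    have h8 := ArithmeticFunction.vonMangoldt_le_log (n := m.toNat)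
    have h9 := ArithmeticFunction.vonMangoldt_nonneg (n := m.toNat)
    rw [abs_le]
    constructor <;> linarith
  · rw [if_neg h1, if_neg h1, sub_zero, abs_zero]
    exact Real.log_natCast_nonneg N

theorem NN_le (a : ℤ → ℝ) (P : ℝ) (hP : 0 ≤ P) (ha : ∀ m, |a m| ≤ P) (u : ℤ) (W q : ℕ)
    (hq : 1 ≤ q) : NN a u W q ≤ ((W : ℝ) * P) ^ 2 := by
  classical
  unfold NN
  have h1 : ∑ r ∈ range q, ∑ m ∈ (Ioc u (u + W)).filter (fun m => m % (q : ℤ) = (r : ℤ)), |a m| ≤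
      (W : ℝ) * P := by
    simp only [sum_filter]
    rw [sum_comm]
    have h2 : ∀ m ∈ Ioc u (u + (W : ℤ)),
        ∑ r ∈ range q, (if m % (q : ℤ) = (r : ℤ) then |a m| else 0) ≤ P := by
      intro m _
      have h3 : ∀ r ∈ range q, (if m % (q : ℤ) = (r : ℤ) then |a m| else 0) =
          if (m % (q : ℤ)).toNat = r then |a m| else 0 := by
        intro r _
        have h4 : 0 ≤ m % (q : ℤ) := Int.emod_nonneg _ (by omega)
        by_cases h5 : m % (q : ℤ) = (r : ℤ)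
        · rw [if_pos h5, if_pos (by omega)]
        · rw [if_neg h5, if_neg (by omega)]
      rw [sum_congr rfl h3, sum_ite_eq]
      split_ifs
      · exact ha m
      · exact hP
    refine (sum_le_sum h2).trans ?_
    rw [sum_const, Int.card_Ioc, nsmul_eq_mul]
    have : ((u + (W : ℤ) - u).toNat : ℝ) = W := by
      have : (u + (W : ℤ) - u).toNat = W := by omega
      rw [this]
    rw [this]
  calc ∑ r ∈ range q, (∑ m ∈ (Ioc u (u + W)).filter (fun m => m % (q : ℤ) = (r : ℤ)), a m) ^ 2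
      ≤ ∑ r ∈ range q, (∑ m ∈ (Ioc u (u + W)).filter (fun m => m % (q : ℤ) = (r : ℤ)), |a m|) ^ 2 := by
        refine sum_le_sum fun r _ => ?_
        rw [← sq_abs]
        exact pow_le_pow_left₀ (abs_nonneg _) (abs_sum_le_sum_abs _ _) 2
    _ ≤ (∑ r ∈ range q, ∑ m ∈ (Ioc u (u + W)).filter (fun m => m % (q : ℤ) = (r : ℤ)), |a m|) ^ 2 :=
        sum_sq_le_sq_sum_of_nonneg (fun r _ => sum_nonneg fun m _ => abs_nonneg _)
    _ ≤ _ := pow_le_pow_left₀ (sum_nonneg fun r _ => sum_nonneg fun m _ => abs_nonneg _) h1 2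

theorem NN_nonneg (a : ℤ → ℝ) (u : ℤ) (W q : ℕ) : 0 ≤ NN a u W q :=
  sum_nonneg fun _ _ => sq_nonneg _

theorem NN_congr {a b : ℤ → ℝ} {u : ℤ} {W q : ℕ} (h : ∀ m ∈ Ioc u (u + (W : ℤ)), a m = b m) :
    NN a u W q = NN b u W q := by
  unfold NN
  refine sum_congr rfl fun r _ => ?_
  congr 1
  refine sum_congr rfl fun m hm => ?_
  exact h m (mem_filter.1 hm).1

/-- the function on `(0, N]` -/
noncomputable def cut (N : ℕ) (f : ℤ → ℝ) (m : ℤ) : ℝ := if m ∈ Ioc (0 : ℤ) N then f m else 0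

theorem cut_abs {N : ℕ} {f : ℤ → ℝ} {P : ℝ} (hP : 0 ≤ P) (hf : ∀ m : ℤ, m ≤ N → |f m| ≤ P)
    (m : ℤ) : |cut N f m| ≤ P := by
  unfold cut
  split_ifs with h
  · exact hf m (mem_Ioc.1 h).2
  · rw [abs_zero]; exact hP

theorem sumNN (f : ℤ → ℝ) (P : ℝ) (hP : 0 ≤ P) (H N q : ℕ) (hq : 1 ≤ q)
    (hf : ∀ m : ℤ, m ≤ N → |f m| ≤ P) :
    ∑ u ∈ Icc (-(H : ℤ)) N, NN (cut N f) u H q ≤
      ∑ u ∈ range (N + 1), NN f (u : ℤ) H q + 2 * H * ((H : ℝ) * P) ^ 2 := by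
  classical
  rw [← sum_filter_add_sum_filter_not (Icc (-(H : ℤ)) N) (fun u : ℤ => 0 ≤ u ∧ u + H ≤ N)]
  apply add_le_add
  · have h1 : ∀ u ∈ (Icc (-(H : ℤ)) N).filter (fun u : ℤ => 0 ≤ u ∧ u + H ≤ N),
        NN (cut N f) u H q = NN f u H q := by
      intro u hu
      obtain ⟨-, h2, h3⟩ := mem_filter.1 hu
      apply NN_congr
      intro m hm
      obtain ⟨h4, h5⟩ := mem_Ioc.1 hm
      unfold cut
      rw [if_pos (mem_Ioc.2 ⟨by omega, by omega⟩)]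
    rw [sum_congr rfl h1]
    have h2 : ∑ u ∈ range (N + 1), NN f (u : ℤ) H q =
        ∑ u ∈ (range (N + 1)).map Nat.castEmbedding, NN f u H q := by
      rw [sum_map]
      rfl
    rw [h2]
    apply sum_le_sum_of_subset_of_nonneg
    · intro u hu
      obtain ⟨h3, h4, h5⟩ := mem_filter.1 hu
      rw [mem_Icc] at h3
      rw [Finset.mem_map]
      refine ⟨u.toNat, mem_range.2 (by omega), ?_⟩
      show ((u.toNat : ℕ) : ℤ) = u
      omega
    · intro u _ _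
      exact NN_nonneg _ _ _ _
  · have h1 : ∀ u ∈ (Icc (-(H : ℤ)) N).filter (fun u : ℤ => ¬ (0 ≤ u ∧ u + H ≤ N)),
        NN (cut N f) u H q ≤ ((H : ℝ) * P) ^ 2 := fun u _ =>
      NN_le _ P hP (cut_abs hP hf) u H q hq
    refine (sum_le_sum h1).trans ?_
    rw [sum_const, nsmul_eq_mul]
    apply mul_le_mul_of_nonneg_right _ (sq_nonneg _)
    have h2 : (Icc (-(H : ℤ)) N).filter (fun u : ℤ => ¬ (0 ≤ u ∧ u + H ≤ N)) ⊆
        Ico (-(H : ℤ)) 0 ∪ Ioc ((N : ℤ) - H) N := by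
      intro u hu
      obtain ⟨h3, h4⟩ := mem_filter.1 hu
      rw [mem_Icc] at h3
      rw [mem_union, mem_Ico, mem_Ioc]
      omega
    have h3 := (card_le_card h2).trans (card_union_le _ _)
    rw [Int.card_Ico, Int.card_Ioc] at h3
    have h4 : ((Icc (-(H : ℤ)) N).filter (fun u : ℤ => ¬ (0 ≤ u ∧ u + H ≤ N))).card ≤ 2 * H := by omega
    exact_mod_cast h4

theorem numeric1 (X y L : ℝ) (A : ℕ) (hX : 0 ≤ X) (hL : 24 ≤ L) :
    (y / L ^ (A + 4)) ^ 2 * (3 * X * (2 * L) ^ 2) ≤ X * y ^ 2 / L ^ A / 2 := by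
  have hL0 : 0 < L := by linarith
  have h1 : (y / L ^ (A + 4)) ^ 2 * (3 * X * (2 * L) ^ 2) = X * y ^ 2 / L ^ A * (12 / L ^ (A + 6)) := by
    rw [pow_add, pow_add]
    field_simp
    ring
  rw [h1]
  have h2 : 0 ≤ X * y ^ 2 / L ^ A := by positivity
  have h3 : 12 / L ^ (A + 6) ≤ 1 / 2 := by
    rw [div_le_div_iff₀ (by positivity) (by norm_num)]
    have h4 : L ≤ L ^ (A + 6) := le_self_pow₀ (by linarith) (by omega)
    linarith
  calc X * y ^ 2 / L ^ A * (12 / L ^ (A + 6)) ≤ X * y ^ 2 / L ^ A * (1 / 2) :=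
        mul_le_mul_of_nonneg_left h3 h2
    _ = _ := by ring

theorem numeric2 (X y L Q H S : ℝ) (A M : ℕ) (hX : 0 ≤ X) (hL : 4096 ≤ L) (hQ0 : 0 ≤ Q)
    (hQ : Q ≤ 2 * L ^ M) (hH : 0 < H) (hHy : H ≤ y ^ 2 / (8 * Q * L ^ (3 * M + A + 4))) (hQ1 : 1 ≤ Q)
    (hyX : y ^ 2 ≤ X) (hS : S ≤ Q * (4 * X * H ^ 2 / L ^ (A + 4 * M + 1) + 2 * H * (H * (2 * L)) ^ 2)) :
    16 * y ^ 2 * Q ^ 3 / H ^ 2 * S ≤ X * y ^ 2 / L ^ A / 2 := by
  have hL0 : 0 < L := by linarith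
  have hQ4 : Q ^ 4 ≤ 16 * L ^ (4 * M) := by
    calc Q ^ 4 ≤ (2 * L ^ M) ^ 4 := pow_le_pow_left₀ hQ0 hQ 4
      _ = _ := by rw [mul_pow, ← pow_mul, mul_comm M 4]; norm_num
  have hQ3 : Q ^ 3 ≤ 8 * L ^ (3 * M) := by
    calc Q ^ 3 ≤ (2 * L ^ M) ^ 3 := pow_le_pow_left₀ hQ0 hQ 3
      _ = _ := by rw [mul_pow, ← pow_mul, mul_comm M 3]; norm_num
  have h1 : 16 * y ^ 2 * Q ^ 3 / H ^ 2 * S ≤ 16 * y ^ 2 * Q ^ 3 / H ^ 2 *
      (Q * (4 * X * H ^ 2 / L ^ (A + 4 * M + 1) + 2 * H * (H * (2 * L)) ^ 2)) :=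
    mul_le_mul_of_nonneg_left hS (by positivity)
  have h2 : 16 * y ^ 2 * Q ^ 3 / H ^ 2 *
      (Q * (4 * X * H ^ 2 / L ^ (A + 4 * M + 1) + 2 * H * (H * (2 * L)) ^ 2)) =
      64 * X * y ^ 2 * Q ^ 4 / L ^ (A + 4 * M + 1) + 128 * y ^ 2 * Q ^ 4 * H * L ^ 2 := by
    field_simp
    ring
  have h3 : 64 * X * y ^ 2 * Q ^ 4 / L ^ (A + 4 * M + 1) ≤ X * y ^ 2 / L ^ A / 4 := by
    calc 64 * X * y ^ 2 * Q ^ 4 / L ^ (A + 4 * M + 1) ≤
          64 * X * y ^ 2 * (16 * L ^ (4 * M)) / L ^ (A + 4 * M + 1) := by gcongr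
      _ = X * y ^ 2 / L ^ A * (1024 / L) := by
          rw [pow_add, pow_add, pow_one]
          field_simp
          ring
      _ ≤ X * y ^ 2 / L ^ A * (1 / 4) := by
          apply mul_le_mul_of_nonneg_left _ (by positivity)
          rw [div_le_div_iff₀ hL0 (by norm_num)]
          linarith
      _ = _ := by ring
  have h4 : 128 * y ^ 2 * Q ^ 4 * H * L ^ 2 ≤ X * y ^ 2 / L ^ A / 4 := by
    calc 128 * y ^ 2 * Q ^ 4 * H * L ^ 2 ≤
          128 * y ^ 2 * Q ^ 4 * (y ^ 2 / (8 * Q * L ^ (3 * M + A + 4))) * L ^ 2 := by gcongr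
      _ = 16 * y ^ 2 * y ^ 2 * Q ^ 3 / L ^ (3 * M + A + 2) := by
          rw [show 3 * M + A + 4 = (3 * M + A + 2) + 2 by ring, pow_add L (3 * M + A + 2) 2]
          field_simp
          ring
      _ ≤ 16 * y ^ 2 * X * (8 * L ^ (3 * M)) / L ^ (3 * M + A + 2) := by gcongr
      _ = X * y ^ 2 / L ^ A * (128 / L ^ 2) := by
          rw [pow_add, pow_add]
          field_simp
          ring
      _ ≤ X * y ^ 2 / L ^ A * (1 / 4) := by
          apply mul_le_mul_of_nonneg_left _ (by positivity)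
          rw [div_le_div_iff₀ (by positivity) (by norm_num)]
          nlinarith
      _ = _ := by ring
  linarith

theorem main (hEXP : S_EXP) : S_SEC := by
  classical
  intro θ hθ A
  obtain ⟨k, hk⟩ := hEXP
  -- the exponent `e`
  obtain ⟨γ, hγ⟩ : ∃ γ : ℝ, γ = 2 * θ - 1 / 3 := ⟨_, rfl⟩
  have hγ0 : 0 < γ := by rw [hγ]; linarith
  obtain ⟨e, he⟩ : ∃ e : ℕ, e = max 4 ⌈4 / γ⌉₊ := ⟨_, rfl⟩
  have he4 : 4 ≤ e := by rw [he]; exact le_max_left _ _
  have heγ : 4 / γ ≤ e := (Nat.le_ceil _).trans (by rw [he]; exact_mod_cast le_max_right _ _)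
  have he4' : (4 : ℝ) ≤ e := by exact_mod_cast he4
  obtain ⟨c, hc⟩ : ∃ c : ℝ, c = 1 / 3 + 2 / e := ⟨_, rfl⟩
  have he0 : (0 : ℝ) < e := by linarith
  have h2e : 2 / (e : ℝ) ≤ γ / 2 := by
    rw [div_le_iff₀ hγ0] at heγ
    rw [div_le_div_iff₀ he0 (by norm_num)]
    linarith
  have h2e' : 2 / (e : ℝ) ≤ 1 / 2 := by
    rw [div_le_div_iff₀ he0 (by norm_num)]
    linarith
  have h2e0 : 0 < 2 / (e : ℝ) := by positivity
  have hc0 : 0 ≤ c := by rw [hc]; linarith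
  have hc1 : c ≤ 1 := by rw [hc]; linarith
  have hcθ : 0 < 2 * θ - c := by rw [hc]; linarith
  -- parameters
  obtain ⟨M, hM⟩ : ∃ M : ℕ, M = (A + 4) * k := ⟨_, rfl⟩
  obtain ⟨E0, hE0⟩ := Pool.Agent.helper24_UT.Si13.main Pool.Agent.helper616_RP.t_SIL13 e
    (A + 4 * M + 1) (M + 1) he4
  refine ⟨E0 + 1, fun E => ?_⟩
  obtain ⟨X1, hX1⟩ := hE0 E
  obtain ⟨X2, hX2⟩ := Ed_abs E
  obtain ⟨X3, hX3⟩ := ev_log (max 4096 (2 ^ E0))
  obtain ⟨X4, hX4⟩ := ev_pow (M + (3 * M + A + 4) + 2) (2 * θ - c) hcθ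
  obtain ⟨X5, hX5⟩ := ev_pow (2 * M + 2) θ (by linarith)
  refine ⟨max (max X1 X2) (max (max X3 X4) (max X5 4)), fun X hX z hz hzE y hy hyX => ?_⟩
  have g1 : X1 ≤ X := ((le_max_left _ _).trans (le_max_left _ _)).trans hX
  have g2 : X2 ≤ X := ((le_max_right _ _).trans (le_max_left _ _)).trans hX
  have g3 := hX3 X (((le_max_left _ _).trans ((le_max_left _ _).trans (le_max_right _ _))).trans hX)
  have g4 := hX4 X (((le_max_right _ _).trans ((le_max_left _ _).trans (le_max_right _ _))).trans hX)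
  have g5 := hX5 X (((le_max_left _ _).trans ((le_max_right _ _).trans (le_max_right _ _))).trans hX)
  have g6 : 4 ≤ X := ((le_max_right _ _).trans ((le_max_right _ _).trans (le_max_right _ _))).trans hX
  set L : ℝ := Real.log X with hL
  have hL1 : 4096 ≤ L := (le_max_left _ _).trans g3
  have hL2 : 2 ^ E0 ≤ L := (le_max_right _ _).trans g3
  have hL0 : 0 < L := by linarith
  have hXr : (4 : ℝ) ≤ X := by exact_mod_cast g6
  have hX0 : (0 : ℝ) < X := by linarith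
  -- logarithms
  have hlog3 : L ≤ Real.log ((3 * X : ℕ) : ℝ) := by
    rw [hL]
    apply Real.log_le_log hX0
    push_cast
    linarith
  have hlog31 : Real.log ((3 * X : ℕ) : ℝ) ≤ Real.log ((3 * X + 1 : ℕ) : ℝ) := by
    apply Real.log_le_log
    · push_cast; linarith
    · push_cast; linarith
  have hlog2 : Real.log ((3 * X + 1 : ℕ) : ℝ) ≤ 2 * L := by
    have h1 : ((3 * X + 1 : ℕ) : ℝ) ≤ (X : ℝ) ^ 2 := by
      push_cast
      nlinarith
    have h2 := Real.log_le_log (by push_cast; linarith) h1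
    rw [Real.log_pow] at h2
    exact_mod_cast h2
  -- `y`
  have hy0 : (0 : ℝ) ≤ y := Nat.cast_nonneg _
  have hyX2 : (y : ℝ) ^ 2 ≤ X := by
    calc (y : ℝ) ^ 2 ≤ ((X : ℝ) ^ (1 / 2 : ℝ)) ^ 2 := pow_le_pow_left₀ hy0 hyX 2
      _ = X := by
        rw [← Real.rpow_natCast, ← Real.rpow_mul hX0.le]
        norm_num
  have hyX2n : y ^ 2 ≤ X := by exact_mod_cast hyX2
  have hyy : y ≤ y ^ 2 := Nat.le_self_pow (by norm_num) y
  have hLM1 : 1 ≤ L ^ M := one_le_pow₀ (by linarith)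
  -- `Q`
  obtain ⟨Q, hQ⟩ : ∃ Q : ℕ, Q = ⌈L ^ M⌉₊ := ⟨_, rfl⟩
  have hQ1 : L ^ M ≤ Q := by rw [hQ]; exact Nat.le_ceil _
  have hQ2 : (Q : ℝ) ≤ L ^ M + 1 := by rw [hQ]; exact (Nat.ceil_lt_add_one (by positivity)).le
  have hQ3 : (Q : ℝ) ≤ 2 * L ^ M := by linarith
  have hQ1' : (1 : ℝ) ≤ Q := by linarith
  have hQ1n : 1 ≤ Q := by exact_mod_cast hQ1'
  have hDk : (L ^ (A + 4)) ^ k = L ^ M := by rw [← pow_mul, hM]
  -- `H`
  obtain ⟨b, hb⟩ : ∃ b : ℕ, b = 3 * M + A + 4 := ⟨_, rfl⟩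
  obtain ⟨H, hH⟩ : ∃ H : ℕ, H = ⌊(y : ℝ) ^ 2 / (8 * Q * L ^ b)⌋₊ := ⟨_, rfl⟩
  have hden : 0 < 8 * (Q : ℝ) * L ^ b := by positivity
  have hH1 : (H : ℝ) ≤ (y : ℝ) ^ 2 / (8 * Q * L ^ b) := by
    rw [hH]; exact Nat.floor_le (by positivity)
  have hH2 : (y : ℝ) ^ 2 / (8 * Q * L ^ b) < H + 1 := by
    rw [hH]; exact Nat.lt_floor_add_one _
  have hXc : 1 ≤ (X : ℝ) ^ c := Real.one_le_rpow (by linarith) hc0
  have hHlow : 4 * (X : ℝ) ^ c ≤ H := by
    have h1 : (X : ℝ) ^ (2 * θ) ≤ (y : ℝ) ^ 2 := by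
      calc (X : ℝ) ^ (2 * θ) = ((X : ℝ) ^ θ) ^ 2 := by
            rw [← Real.rpow_natCast, ← Real.rpow_mul hX0.le]
            congr 1
            push_cast
            ring
        _ ≤ (y : ℝ) ^ 2 := pow_le_pow_left₀ (by positivity) hy 2
    have h2 : (X : ℝ) ^ (2 * θ) = (X : ℝ) ^ (2 * θ - c) * (X : ℝ) ^ c := by
      rw [← Real.rpow_add hX0]
      congr 1
      ring
    have h3 : 5 * (X : ℝ) ^ c ≤ (y : ℝ) ^ 2 / (8 * Q * L ^ b) := by
      rw [le_div_iff₀ hden]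
      calc 5 * (X : ℝ) ^ c * (8 * Q * L ^ b) ≤ 5 * (X : ℝ) ^ c * (8 * (2 * L ^ M) * L ^ b) := by gcongr
        _ = 80 * (L ^ (M + b) * (X : ℝ) ^ c) := by rw [pow_add]; ring
        _ ≤ L ^ 2 * (L ^ (M + b) * (X : ℝ) ^ c) := by
            apply mul_le_mul_of_nonneg_right _ (by positivity)
            nlinarith
        _ = L ^ (M + b + 2) * (X : ℝ) ^ c := by rw [pow_add L (M + b) 2]; ring
        _ ≤ (X : ℝ) ^ (2 * θ - c) * (X : ℝ) ^ c := by
            apply mul_le_mul_of_nonneg_right _ (by positivity)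
            rw [hb]
            exact g4
        _ ≤ (y : ℝ) ^ 2 := by rw [← h2]; exact h1
    linarith
  have hH0 : (1 : ℝ) ≤ H := by linarith
  have hH0n : 1 ≤ H := by exact_mod_cast hH0
  have hLb : 1 ≤ L ^ b := one_le_pow₀ (by linarith)
  have hHX : (H : ℝ) ≤ X := by
    refine hH1.trans ((div_le_self (by positivity) ?_).trans hyX2)
    have : (1 : ℝ) * 1 ≤ Q * L ^ b := mul_le_mul hQ1' hLb (by norm_num) (by positivity)
    nlinarith
  have hHXn : H ≤ X := by exact_mod_cast hHX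
  have h8 : 8 * (H : ℝ) * Q ≤ (y : ℝ) ^ 2 := by
    have h1 : (H : ℝ) * (8 * Q * L ^ b) ≤ (y : ℝ) ^ 2 := by rwa [le_div_iff₀ hden] at hH1
    calc 8 * (H : ℝ) * Q = (H : ℝ) * (8 * Q * 1) := by ring
      _ ≤ (H : ℝ) * (8 * Q * L ^ b) := by gcongr
      _ ≤ _ := h1
  -- the bound of `Ed`
  have hz1 : 1 ≤ z := by
    have h1 : (1 : ℝ) ≤ z := (one_le_pow₀ (by linarith : (1 : ℝ) ≤ L)).trans hz
    exact_mod_cast h1
  have hEd : ∀ m : ℤ, m ≤ ((3 * X : ℕ) : ℤ) → |Ed z m| ≤ 2 * L := by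
    intro m hm
    exact (hX2 (3 * X) (by omega) z hz1 (hzE.trans (pow_le_pow_left₀ hL0.le hlog3 E)) m hm).trans
      (hlog31.trans hlog2)
  -- EXP
  have hmain := hk y H (3 * X) X Q (L ^ (A + 4)) (cut (3 * X) (Ed z))
    (by
      have : L ≤ L ^ (A + 4) := le_self_pow₀ (by linarith) (by omega)
      linarith)
    (by
      rw [hDk]
      refine le_trans ?_ (g5.trans hy)
      exact pow_le_pow_right₀ (by linarith) (by omega))
    (by rw [hDk]; exact hQ1) (by rw [hDk]; exact hQ2) hH0n h8 (by omega) (by omega)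
    (by
      refine le_trans ?_ (g5.trans hy)
      calc (4 * (Q : ℝ)) ^ 2 ≤ (4 * (2 * L ^ M)) ^ 2 := by gcongr
        _ = 64 * L ^ (2 * M) := by rw [mul_comm 2 M, pow_mul]; ring
        _ ≤ L ^ 2 * L ^ (2 * M) := by
            apply mul_le_mul_of_nonneg_right _ (by positivity)
            nlinarith
        _ = L ^ (2 * M + 2) := by rw [pow_add]; ring)
    (by
      intro m hm
      unfold cut
      rw [if_neg hm])
  have hlhs : ∑ c ∈ range (X + 1), (∑ n ∈ Ioc 0 y, Ed z ((n : ℤ) ^ 2 + n + c)) ^ 2 =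
      ∑ c ∈ range (X + 1), (∑ n ∈ Ioc 0 y, cut (3 * X) (Ed z) ((n : ℤ) ^ 2 + n + c)) ^ 2 := by
    refine sum_congr rfl fun c hc => ?_
    congr 1
    refine sum_congr rfl fun n hn => ?_
    rw [mem_range] at hc
    rw [mem_Ioc] at hn
    unfold cut
    rw [if_pos]
    rw [mem_Ioc]
    have h1 : n ^ 2 ≤ y ^ 2 := Nat.pow_le_pow_left hn.2 2
    have h2 : n ^ 2 + n + c ≤ 3 * X := by omega
    have h3 : 0 < n ^ 2 + n + c := by omega
    exact ⟨by exact_mod_cast h3, by exact_mod_cast h2⟩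
  rw [hlhs]
  refine hmain.trans ?_
  -- the first term
  have hT1 : ((y : ℝ) / L ^ (A + 4)) ^ 2 * ∑ m ∈ Ioc (0 : ℤ) ((3 * X : ℕ) : ℤ), cut (3 * X) (Ed z) m ^ 2 ≤
      X * (y : ℝ) ^ 2 / L ^ A / 2 := by
    refine le_trans (mul_le_mul_of_nonneg_left ?_ (sq_nonneg _))
      (numeric1 X y L A hX0.le (by linarith))
    have h1 : ∀ m ∈ Ioc (0 : ℤ) ((3 * X : ℕ) : ℤ), cut (3 * X) (Ed z) m ^ 2 ≤ (2 * L) ^ 2 := by
      intro m _
      rw [← sq_abs]
      exact pow_le_pow_left₀ (abs_nonneg _) (cut_abs (by positivity) hEd m) 2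
    refine (sum_le_sum h1).trans ?_
    rw [sum_const, Int.card_Ioc, nsmul_eq_mul]
    have h2 : ((((3 * X : ℕ) : ℤ) - 0).toNat : ℝ) = 3 * X := by
      have : (((3 * X : ℕ) : ℤ) - 0).toNat = 3 * X := by omega
      rw [this]
      push_cast
      ring
    rw [h2]
  -- the second term
  have hS : ∑ q ∈ Icc 1 Q, ∑ u ∈ Icc (-(H : ℤ)) ((3 * X : ℕ) : ℤ), NN (cut (3 * X) (Ed z)) u H q ≤
      Q * (4 * X * (H : ℝ) ^ 2 / L ^ (A + 4 * M + 1) + 2 * H * (H * (2 * L)) ^ 2) := by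
    have h1 : ∀ q ∈ Icc 1 Q, ∑ u ∈ Icc (-(H : ℤ)) ((3 * X : ℕ) : ℤ), NN (cut (3 * X) (Ed z)) u H q ≤
        4 * X * (H : ℝ) ^ 2 / L ^ (A + 4 * M + 1) + 2 * H * (H * (2 * L)) ^ 2 := by
      intro q hq
      obtain ⟨hq1, hqQ⟩ := mem_Icc.1 hq
      refine (sumNN (Ed z) (2 * L) (by positivity) H (3 * X) q hq1 hEd).trans ?_
      apply add_le_add _ le_rfl
      have h2 := hX1 (3 * X + 1) (by omega) z
        (by
          calc Real.log ((3 * X + 1 : ℕ) : ℝ) ^ E0 ≤ (2 * L) ^ E0 :=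
                pow_le_pow_left₀ (hL0.le.trans (hlog3.trans hlog31)) hlog2 E0
            _ = 2 ^ E0 * L ^ E0 := mul_pow _ _ _
            _ ≤ L * L ^ E0 := mul_le_mul_of_nonneg_right hL2 (by positivity)
            _ = L ^ (E0 + 1) := by rw [pow_succ]; ring
            _ ≤ z := hz)
        (hzE.trans (pow_le_pow_left₀ hL0.le (hlog3.trans hlog31) E)) q hq1
        (by
          have h3 : (q : ℝ) ≤ Q := by exact_mod_cast hqQ
          calc (q : ℝ) ≤ 2 * L ^ M := h3.trans hQ3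
            _ ≤ L * L ^ M := mul_le_mul_of_nonneg_right (by linarith) (by positivity)
            _ = L ^ (M + 1) := by rw [pow_succ]; ring
            _ ≤ _ := pow_le_pow_left₀ hL0.le (hlog3.trans hlog31) _) H
        (by
          rw [← hc]
          calc ((3 * X + 1 : ℕ) : ℝ) ^ c ≤ (4 * (X : ℝ)) ^ c := by
                apply Real.rpow_le_rpow (by positivity) _ hc0
                push_cast
                linarith
            _ = 4 ^ c * (X : ℝ) ^ c := Real.mul_rpow (by norm_num) hX0.le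
            _ ≤ 4 ^ (1 : ℝ) * (X : ℝ) ^ c := by
                apply mul_le_mul_of_nonneg_right _ (by positivity)
                exact Real.rpow_le_rpow_of_exponent_le (by norm_num) hc1
            _ = 4 * (X : ℝ) ^ c := by rw [Real.rpow_one]
            _ ≤ H := hHlow)
        (by omega)
      refine h2.trans ?_
      have h5 : L ^ (A + 4 * M + 1) ≤ Real.log ((3 * X + 1 : ℕ) : ℝ) ^ (A + 4 * M + 1) :=
        pow_le_pow_left₀ hL0.le (hlog3.trans hlog31) _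
      have h6 : ((3 * X + 1 : ℕ) : ℝ) ≤ 4 * X := by push_cast; linarith
      exact div_le_div₀ (by positivity) (mul_le_mul_of_nonneg_right h6 (by positivity)) (by positivity) h5
    refine (sum_le_sum h1).trans ?_
    rw [sum_const, Nat.card_Icc, nsmul_eq_mul, Nat.add_sub_cancel]
  have hT2 := numeric2 X y L Q H _ A M hX0.le hL1 (by positivity) hQ3 (by linarith) (by rw [← hb]; exact hH1)
    hQ1' hyX2 hS
  have : X * (y : ℝ) ^ 2 / L ^ A / 2 + X * (y : ℝ) ^ 2 / L ^ A / 2 = X * (y : ℝ) ^ 2 / L ^ A := by ring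
  linarith

end Pool.Agent.Helper64.AY.Sec
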