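import Pool.Graph.R_pool_sql_team_seeded_620a6dc7.helper616_RP_.Dep
import Pool.Graph.R_pool_sql_team_seeded_620a6dc7.helper24_UT_.Si13
import Pool.Graph.R_pool_sql_team_seeded_f72693b1.W81.R1.Fin

/-!
# Project AY (helper64): prime values of `n² + n + c`, `n ≤ x`, for almost all `c ≤ X`, `X^(1/6+ε) ≤ x ≤ X^(1/2)`

Statements of the steps.
-/

set_option autoImplicit false

namespace Pool.Agent.Helper64.AY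

open Finset Filter
open Pool.Agent.H469R2.NK (e)
open Pool.Agent.helper24_UT (NN Ed)
open Pool.Agent.W81.R1 (gI qf)

/-- the Weyl sum of `n ^ 2 + n` -/
noncomputable def W (y : ℕ) (t : ℝ) : ℂ := ∑ n ∈ Ioc 0 y, e (((n : ℝ) ^ 2 + n) * t)

/-- (WEY) inverse theorem for the quadratic Weyl sum.
Weyl differencing: `|W|^2 ≤ y + 2 ∑_{l<y} min(y, 1/(2‖2 l t‖))`; hence `‖2 l t‖ ≤ 8 D^2 / y` for at least `y/(8 D^2)` of the `l < y`; a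
subinterval of length `Y ≈ y/(100 D^2)` has the same density, take differences and use `Pool.Agent.W81.R1.arc` (file W81/R1/Arc.lean of
run f72693b1); `Pool.Agent.W81.R1.geo` bounds the geometric sums. `k = 10` is enough, any `k` is fine. -/
def S_WEY : Prop := ∃ k : ℕ, ∀ (y : ℕ) (D t : ℝ), 2 ≤ D → D ^ k ≤ y → (y : ℝ) / D ≤ ‖W y t‖ →
  ∃ q : ℕ, 1 ≤ q ∧ (q : ℝ) ≤ D ^ k ∧ ∃ b : ℤ, |t - b / q| ≤ D ^ k / (y : ℝ) ^ 2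

/-- (GAL) discrete Gallagher inequality. Proof: with `A(h) = ∑ a m e(m h/M)` and `B(u) = ∑_{u<m≤u+H} a m e(m φ)` one has
`∑_{-H≤u≤N} B(u) e(u (h/M - φ)) = A(h) ∑_{s=1}^{H} e(-s (h/M - φ))` and the last sum has real part `≥ H/2` (since `|s θ| ≤ 1/8`);
Parseval modulo `M` for `B(u) e(-u φ)` (the `u` run over at most `M` consecutive integers). -/
def S_GAL : Prop := ∀ (M H N : ℕ) (φ : ℝ) (a : ℤ → ℝ), 1 ≤ H → N + H + 1 ≤ M → (∀ m : ℤ, m ∉ Ioc (0 : ℤ) N → a m = 0) →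
  ∀ S : Finset ℕ, S ⊆ range M → (∀ h ∈ S, |(h : ℝ) / M - φ| ≤ 1 / (8 * H)) →
  ∑ h ∈ S, ‖∑ m ∈ Ioc (0 : ℤ) N, (a m : ℂ) * e ((m : ℝ) * (h / M))‖ ^ 2 ≤
    4 / (H : ℝ) ^ 2 * M * ∑ u ∈ Icc (-(H : ℤ)) N, ‖∑ m ∈ Ioc u (u + H), (a m : ℂ) * e ((m : ℝ) * φ)‖ ^ 2

/-- (EXP) the second moment over the constant terms, explicit form. Proof: Fourier inversion and Parseval modulo `M` (`M = 2 N` or so):
`∑_c (∑_n a(n²+n+c))^2 ≤ M⁻¹ ∑_{h<M} |A(h)|² |W y (h/M)|²`, `A(h) = ∑ a m e(m h/M)`. The `h` with `|W| < y/D` contribute at most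
`(y/D)² ∑ a²`; every other `h` has `|h/M - b/q| ≤ Q/y² ≤ 1/(8 H)` with `1 ≤ q ≤ Q`, `0 ≤ b ≤ q` by (WEY): apply (GAL) with `φ = b/q`, and
`‖∑_{u<m≤u+H} a m e(m b/q)‖² ≤ q * NN a u H q` (Cauchy-Schwarz over the classes modulo `q`). -/
def S_EXP : Prop := ∃ k : ℕ, ∀ (y H N X Q : ℕ) (D : ℝ) (a : ℤ → ℝ), 2 ≤ D → D ^ k ≤ y → D ^ k ≤ Q → (Q : ℝ) ≤ D ^ k + 1 →
  1 ≤ H → 8 * (H : ℝ) * Q ≤ (y : ℝ) ^ 2 → H + 1 ≤ N → y ^ 2 + y + X ≤ N → (4 * (Q : ℝ)) ^ 2 ≤ y →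
  (∀ m : ℤ, m ∉ Ioc (0 : ℤ) N → a m = 0) →
  ∑ c ∈ range (X + 1), (∑ n ∈ Ioc 0 y, a ((n : ℤ) ^ 2 + n + c)) ^ 2 ≤
    ((y : ℝ) / D) ^ 2 * ∑ m ∈ Ioc (0 : ℤ) N, a m ^ 2 +
    16 * (y : ℝ) ^ 2 * (Q : ℝ) ^ 3 / (H : ℝ) ^ 2 * ∑ q ∈ Icc 1 Q, ∑ u ∈ Icc (-(H : ℤ)) N, NN a u H q

/-- (SEC) the second moment for the primes minus their sieve model. From (EXP) with `N = 3 X`, `a m = Ed z m` for `0 < m ≤ N` and `0` else,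
`D = (log X)^(A+4)` or so, `Q = ⌈D^k⌉`, `H = ⌊y²/(8 Q (log X)^..)⌋`, and `Pool.Agent.helper24_UT.S_SI13` (proved:
`Pool.Agent.helper24_UT.Si13.main Pool.Agent.helper616_RP.t_SIL13`) with `X` replaced by `3 X + 1`; windows which are not inside `(0, N]`
are estimated trivially (`|Ed z m| ≤ 3 log m` or so, cf. `W81.R1.gt_abs`, `W81.R1.sup_gt`). -/
def S_SEC : Prop := ∀ θ : ℝ, 1 / 6 < θ → ∀ A : ℕ, ∃ Bz : ℕ, ∀ E : ℕ, ∃ X0 : ℕ, ∀ X : ℕ, X0 ≤ X → ∀ z : ℕ,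
  (Real.log X) ^ Bz ≤ z → (z : ℝ) ≤ (Real.log X) ^ E → ∀ y : ℕ, (X : ℝ) ^ θ ≤ y → (y : ℝ) ≤ (X : ℝ) ^ (1 / 2 : ℝ) →
  ∑ c ∈ range (X + 1), (∑ n ∈ Ioc 0 y, Ed z ((n : ℤ) ^ 2 + n + c)) ^ 2 ≤ X * (y : ℝ) ^ 2 / (Real.log X) ^ A

/-- (NET) all lengths at once, `log` on the primes instead of `Λ`. From (SEC) with `θ' = (θ + 1/6)/2`: Chebyshev's inequality at the points
`y_j` of a net of ratio `1 + (log X)^(-V-3)` between `X^θ'` and `X^(1/2)` (`≤ (log X)^(V+5)` points), trivial bound between the points and for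
`y < X^θ'`; the prime powers: `∑_c ∑_{n≤y} (Λ - θ)(n²+n+c) ≤ y ∑_{m≤3X} (Λ-θ)(m) ≤ C y √X` (Markov; `Chebyshev.psi_sub_theta_le_mul_sqrt`).
Pattern: `W81.R1.all_y` (file W81/R1/Mean.lean). -/
def S_NET : Prop := ∀ θ : ℝ, 1 / 6 < θ → ∀ U V : ℕ, ∃ Bz : ℕ, ∀ E : ℕ, ∃ X0 : ℕ, ∀ X : ℕ, X0 ≤ X → ∀ z : ℕ,
  (Real.log X) ^ Bz ≤ z → (z : ℝ) ≤ (Real.log X) ^ E →
  ∃ Bad : Finset ℕ, (Bad.card : ℝ) ≤ X / (Real.log X) ^ U ∧ ∀ c : ℕ, 1 ≤ c → c ≤ X → c ∉ Bad →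
    ∀ x : ℕ, (X : ℝ) ^ θ ≤ x → (x : ℝ) ≤ (X : ℝ) ^ (1 / 2 : ℝ) → ∀ y ≤ x,
      |∑ n ∈ Ioc 0 y, gI z (qf 1 1 n + c)| ≤ x / (Real.log X) ^ V

/-- `P_A(n)`: the number of `0 ≤ t ≤ n` with `t² + t + A` prime -/
noncomputable def P (A n : ℕ) : ℕ :=
  ((range (n + 1)).filter (fun t : ℕ => (t ^ 2 + t + A).Prime)).card

/-- `L_A(n)`: twice the integral of `1 / log (t² + t + A)` over `[0, n]` -/
noncomputable def LA (A n : ℕ) : ℝ :=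
  2 * ∫ t in (0 : ℝ)..n, 1 / Real.log (t ^ 2 + t + A)

/-- `∏ (1 - (Δ/p)/(p-1))` over the odd primes `p < N`, where `Δ = 1 - 4A` -/
noncomputable def partialProd (A N : ℕ) : ℝ :=
  ∏ p ∈ (range N).filter (fun p : ℕ => Nat.Prime p ∧ 2 < p),
    (1 - ((jacobiSym (1 - 4 * (A : ℤ)) p : ℤ) : ℝ) / ((p : ℝ) - 1))

/-- (FIN) the final theorem. From (NET); pattern: `W81.R1.blk` (Blk.lean) with `a = b = 1`, using `const_part` (with `H := X`,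
`z = ⌊(log X)^E⌋₊`), `exc_card_short` (with `H := X`, `Λ := 4 X`) and `pv_close` (with its `x := x`; `log X ≤ 6 log x`), then the proof of
`Results.MP_8be758_nt.AlmostAllOddA.result` of run f72693b1 (`P_eq`, `prod_eq`, `sum_int` there can be cited). -/
def S_FIN : Prop := ∀ θ : ℝ, 1 / 6 < θ → ∀ U : ℕ, ∃ X0 : ℕ, ∀ X : ℕ, X0 ≤ X →
  ∃ Bad : Finset ℕ, (Bad.card : ℝ) ≤ X / (Real.log X) ^ U ∧
    ∀ A : ℕ, 3 ≤ A → A ≤ X → Odd A → A ∉ Bad →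
      ∃ K : ℝ, 0 < K ∧ Tendsto (fun N : ℕ => partialProd A N) atTop (nhds K) ∧ 1 / (8 * Real.log X) ≤ K ∧
        ∀ n : ℕ, (X : ℝ) ^ θ ≤ n → (n : ℝ) ≤ (X : ℝ) ^ (1 / 2 : ℝ) →
          |(P A n : ℝ) - K * LA A n| ≤ K * (n / (Real.log X) ^ U)

end Pool.Agent.Helper64.AY
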