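import Pool.Agent.Helper64.AY.Stm

/-!
# Project AY (helper64), module WEY (helper53): inverse theorem for the quadratic Weyl sum
-/

set_option autoImplicit false

namespace Pool.Agent.Helper64.AY.Wey

open Finset
open Pool.Agent.H469R2.NK (e norm_e e_add conj_e)
open Pool.Agent.W81.R1 (arc geo)

/-- Weyl differencing -/
theorem diff (f : ℕ → ℂ) (y : ℕ) :
    ‖∑ n ∈ Ioc 0 y, f n‖ ^ 2 = ∑ n ∈ Ioc 0 y, ‖f n‖ ^ 2 +
      2 * (∑ l ∈ Icc 1 y, ∑ n ∈ Ioc 0 (y - l), f (n + l) * (starRingEnd ℂ) (f n)).re := by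
  induction y with
  | zero => simp
  | succ y ih =>
    have h1 : ∑ l ∈ Icc 1 (y + 1), ∑ n ∈ Ioc 0 (y + 1 - l), f (n + l) * (starRingEnd ℂ) (f n) =
        ∑ l ∈ Icc 1 y, ∑ n ∈ Ioc 0 (y - l), f (n + l) * (starRingEnd ℂ) (f n) +
          f (y + 1) * (starRingEnd ℂ) (∑ n ∈ Ioc 0 y, f n) := by
      rw [← Finset.insert_Icc_right_eq_Icc_add_one (by omega : 1 ≤ y + 1), sum_insert (by simp)]
      rw [Nat.sub_self, Ioc_self, sum_empty, zero_add]
      have h2 : ∀ l ∈ Icc 1 y, ∑ n ∈ Ioc 0 (y + 1 - l), f (n + l) * (starRingEnd ℂ) (f n) =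
          ∑ n ∈ Ioc 0 (y - l), f (n + l) * (starRingEnd ℂ) (f n) +
            f (y + 1) * (starRingEnd ℂ) (f (y + 1 - l)) := by
        intro l hl
        rw [mem_Icc] at hl
        have h3 : y + 1 - l = (y - l) + 1 := by omega
        rw [h3, sum_Ioc_succ_top (by omega)]
        congr 3
        omega
      rw [sum_congr rfl h2, sum_add_distrib]
      congr 1
      rw [map_sum, mul_sum]
      refine sum_nbij' (fun l => y + 1 - l) (fun n => y + 1 - n) ?_ ?_ ?_ ?_ ?_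
      · intro l hl
        rw [mem_Icc] at hl
        rw [mem_Ioc]
        omega
      · intro l hl
        rw [mem_Ioc] at hl
        rw [mem_Icc]
        omega
      · intro l hl
        rw [mem_Icc] at hl
        show y + 1 - (y + 1 - l) = l
        omega
      · intro l hl
        rw [mem_Ioc] at hl
        show y + 1 - (y + 1 - l) = l
        omega
      · intro l _
        rfl
    rw [h1, sum_Ioc_succ_top (by omega), sum_Ioc_succ_top (by omega), Complex.add_re, mul_add,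
      Complex.sq_norm, Complex.normSq_add, ← Complex.sq_norm, ih, ← Complex.sq_norm]
    have h4 : ((∑ n ∈ Ioc 0 y, f n) * (starRingEnd ℂ) (f (y + 1))).re =
        (f (y + 1) * (starRingEnd ℂ) (∑ n ∈ Ioc 0 y, f n)).re := by
      simp only [Complex.mul_re, Complex.conj_re, Complex.conj_im]
      ring
    rw [h4]
    ring

theorem weyl (y : ℕ) (t : ℝ) : ‖W y t‖ ^ 2 ≤ y +
    2 * ∑ l ∈ Icc 1 y, ‖∑ n ∈ Ioc 0 (y - l), e ((n : ℝ) * (l * (2 * t)) + ((l : ℝ) ^ 2 + l) * t)‖ := by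
  unfold W
  rw [diff]
  have h1 : ∑ n ∈ Ioc 0 y, ‖e (((n : ℝ) ^ 2 + n) * t)‖ ^ 2 = y := by
    rw [sum_congr rfl fun n _ => by rw [norm_e, one_pow], sum_const, Nat.card_Ioc]
    simp
  rw [h1]
  gcongr
  refine (Complex.re_le_norm _).trans ((norm_sum_le _ _).trans (sum_le_sum fun l _ => le_of_eq ?_))
  congr 1
  refine sum_congr rfl fun n _ => ?_
  rw [conj_e, ← e_add]
  congr 1
  push_cast
  ring

theorem main : S_WEY := by
  classical
  refine ⟨24, fun y D t hD hy hW => ?_⟩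
  have hD0 : (0 : ℝ) < D := by linarith
  have hD2 : ∀ k : ℕ, (2 : ℝ) ^ k ≤ D ^ k := fun k => pow_le_pow_left₀ (by norm_num) hD k
  have hy1 : D ^ 24 ≤ (y : ℝ) := hy
  have hyR : (0 : ℝ) < y := lt_of_lt_of_le (by positivity) hy1
  have hyN : 0 < y := by exact_mod_cast hyR
  have hp4 : 2 ^ 20 * D ^ 4 ≤ D ^ 24 := by
    calc (2 : ℝ) ^ 20 * D ^ 4 ≤ D ^ 20 * D ^ 4 := mul_le_mul_of_nonneg_right (hD2 20) (by positivity)
      _ = D ^ 24 := by ring
  have hD1 : (1 : ℝ) ≤ D ^ 2 := by nlinarith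
  have hD24 : D ^ 2 ≤ D ^ 4 := by nlinarith
  have hyD4 : 2 ^ 20 * D ^ 4 ≤ (y : ℝ) := hp4.trans hy1
  have hyD2 : 2 ^ 20 * D ^ 2 ≤ (y : ℝ) := le_trans (by linarith) hyD4
  set δ : ℝ := 16 * D ^ 2 / y with hδ
  have hδ0 : 0 < δ := by positivity
  set L := (Icc 1 y).filter fun l : ℕ => ∃ m : ℤ, |(l : ℝ) * (2 * t) - m| ≤ δ with hL
  -- many l
  have hLc : (y : ℝ) / (4 * D ^ 2) ≤ L.card := by
    have h1 : ((y : ℝ) / D) ^ 2 ≤ ‖W y t‖ ^ 2 := pow_le_pow_left₀ (by positivity) hW 2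
    have h2 := h1.trans (weyl y t)
    have h3 : ∀ l ∈ Icc 1 y,
        ‖∑ n ∈ Ioc 0 (y - l), e ((n : ℝ) * (l * (2 * t)) + ((l : ℝ) ^ 2 + l) * t)‖ ≤
        (if l ∈ L then (y : ℝ) else 0) + 2 / δ := by
      intro l hl
      by_cases h : l ∈ L
      · rw [if_pos h]
        have h4 : ‖∑ n ∈ Ioc 0 (y - l), e ((n : ℝ) * (l * (2 * t)) + ((l : ℝ) ^ 2 + l) * t)‖ ≤ y := by
          refine (norm_sum_le _ _).trans ?_
          rw [sum_congr rfl fun n _ => norm_e _, sum_const, Nat.card_Ioc, nsmul_eq_mul, mul_one]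
          have : y - l - 0 ≤ y := by omega
          exact_mod_cast this
        have h5 : 0 < 2 / δ := by positivity
        linarith
      · rw [if_neg h, zero_add]
        refine geo (l * (2 * t)) (((l : ℝ) ^ 2 + l) * t) δ hδ0 (fun m => ?_) 0 (y - l)
        by_contra hcon
        apply h
        rw [hL, mem_filter]
        exact ⟨hl, m, (not_le.1 hcon).le⟩
    have h4 := sum_le_sum h3
    rw [sum_add_distrib, ← sum_filter, sum_const, sum_const, Nat.card_Icc, nsmul_eq_mul,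
      nsmul_eq_mul] at h4
    have h5 : (Icc 1 y).filter (fun l => l ∈ L) = L := by
      ext l
      rw [mem_filter]
      constructor
      · exact fun h => h.2
      · intro h
        exact ⟨(mem_filter.1 h).1, h⟩
    rw [h5] at h4
    have h6 : ((y + 1 - 1 : ℕ) : ℝ) * (2 / δ) = (y : ℝ) ^ 2 / (8 * D ^ 2) := by
      rw [Nat.add_sub_cancel, hδ]
      field_simp
      ring
    rw [h6] at h4
    have h7 : ((y : ℝ) / D) ^ 2 = (y : ℝ) ^ 2 / D ^ 2 := by rw [div_pow]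
    rw [h7] at h2
    have h8 : (y : ℝ) ^ 2 / D ^ 2 ≤ y + 2 * (L.card * y + (y : ℝ) ^ 2 / (8 * D ^ 2)) := by linarith
    have h9 : (y : ℝ) ≤ (y : ℝ) ^ 2 / (4 * D ^ 2) := by
      rw [le_div_iff₀ (by positivity)]
      nlinarith
    have h10 : (y : ℝ) ^ 2 / D ^ 2 = 8 * ((y : ℝ) ^ 2 / (8 * D ^ 2)) := by
      field_simp
    have h11 : (y : ℝ) ^ 2 / (4 * D ^ 2) = 2 * ((y : ℝ) ^ 2 / (8 * D ^ 2)) := by
      field_simp
      ring
    have h12 : 2 * ((y : ℝ) ^ 2 / (8 * D ^ 2)) ≤ L.card * y := by linarith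
    rw [← h11] at h12
    have h13 : (y : ℝ) ^ 2 / (4 * D ^ 2) = y / (4 * D ^ 2) * y := by ring
    rw [h13] at h12
    exact le_of_mul_le_mul_right h12 hyR
  -- one block
  set Y : ℕ := ⌊(y : ℝ) / (128 * D ^ 2)⌋₊ with hY
  have hYle : (Y : ℝ) ≤ y / (128 * D ^ 2) := Nat.floor_le (by positivity)
  have hYlt : (y : ℝ) / (128 * D ^ 2) < Y + 1 := Nat.lt_floor_add_one _
  have hYge : (y : ℝ) / (256 * D ^ 2) ≤ Y := by
    have h1 : (1 : ℝ) ≤ y / (256 * D ^ 2) := by
      rw [le_div_iff₀ (by positivity)]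
      linarith
    have h2 : (y : ℝ) / (128 * D ^ 2) = 2 * (y / (256 * D ^ 2)) := by
      field_simp
      ring
    linarith
  have hYbig : 64 * D ^ 2 ≤ (Y : ℝ) := by
    refine le_trans ?_ hYge
    rw [le_div_iff₀ (by positivity)]
    nlinarith
  have hY0 : (0 : ℝ) < Y := by nlinarith
  have hY1 : 1 ≤ Y := by
    have : 0 < Y := by exact_mod_cast hY0
    omega
  have hYy : (Y : ℝ) ≤ y := by
    refine hYle.trans ?_
    rw [div_le_iff₀ (by positivity)]
    nlinarith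
  obtain ⟨b, hb⟩ : ∃ b : ℕ, (Y : ℝ) / (16 * D ^ 2) < ((L.filter fun l => (l - 1) / Y = b).card : ℝ) := by
    by_contra hcon
    push Not at hcon
    have hmaps : ∀ l ∈ L, (l - 1) / Y ∈ range (y / Y + 1) := by
      intro l hl
      rw [hL, mem_filter, mem_Icc] at hl
      rw [mem_range]
      have : (l - 1) / Y ≤ y / Y := Nat.div_le_div_right (by omega)
      omega
    have h1 : (L.card : ℝ) = ∑ b ∈ range (y / Y + 1), ((L.filter fun l => (l - 1) / Y = b).card : ℝ) := by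
      exact_mod_cast card_eq_sum_card_fiberwise hmaps
    have h2 : (L.card : ℝ) ≤ (y / Y + 1) * (Y / (16 * D ^ 2)) := by
      rw [h1]
      refine (sum_le_sum fun b _ => hcon b).trans ?_
      rw [sum_const, card_range, nsmul_eq_mul]
      refine mul_le_mul_of_nonneg_right ?_ (by positivity)
      push_cast
      have : ((y / Y : ℕ) : ℝ) ≤ (y : ℝ) / Y := Nat.cast_div_le
      linarith
    have h3 : ((y : ℝ) / Y + 1) * (Y / (16 * D ^ 2)) = y / (16 * D ^ 2) + Y / (16 * D ^ 2) := by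
      field_simp
    have h4 : (Y : ℝ) / (16 * D ^ 2) ≤ y / (16 * D ^ 2) := by gcongr
    have h5 : (y : ℝ) / (4 * D ^ 2) = 4 * (y / (16 * D ^ 2)) := by
      field_simp
      ring
    have h6 : 0 < (y : ℝ) / (16 * D ^ 2) := by positivity
    rw [h3] at h2
    linarith
  set F := L.filter fun l => (l - 1) / Y = b with hF
  have hFne : F.Nonempty := by
    rw [← card_pos]
    have h1 : (0 : ℝ) < F.card := lt_of_le_of_lt (by positivity) hb
    exact_mod_cast h1
  set l₀ := F.min' hFne with hl₀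
  have hl₀F : l₀ ∈ F := min'_mem _ _
  have hl₀1 : 1 ≤ l₀ := by
    have h1 := (mem_filter.1 (mem_filter.1 hl₀F).1).1
    exact (mem_Icc.1 h1).1
  have hbl : ∀ l ∈ F, l₀ ≤ l ∧ l - l₀ < Y := by
    intro l hl
    have h1 : l₀ ≤ l := min'_le _ _ hl
    refine ⟨h1, ?_⟩
    have h2 := (mem_filter.1 hl).2
    have h3 := (mem_filter.1 hl₀F).2
    have h4 : l - 1 < ((l - 1) / Y + 1) * Y := by
      have := Nat.lt_mul_div_succ (l - 1) (show 0 < Y by omega)
      rw [mul_comm] at this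
      exact this
    have h5 : (l₀ - 1) / Y * Y ≤ l₀ - 1 := Nat.div_mul_le_self _ _
    rw [h2] at h4
    rw [h3] at h5
    have h6 : (b + 1) * Y = b * Y + Y := by ring
    omega
  set L' := (F.erase l₀).image fun l => l - l₀ with hL'
  have hL'c : L'.card = F.card - 1 := by
    rw [hL', card_image_of_injOn, card_erase_of_mem hl₀F]
    intro u hu v hv huv
    have h1 := (hbl u (mem_of_mem_erase hu)).1
    have h2 := (hbl v (mem_of_mem_erase hv)).1
    simp only at huv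
    omega
  have hL'sub : L' ⊆ Icc 1 Y := by
    intro u hu
    obtain ⟨l, hl, rfl⟩ := mem_image.1 hu
    have h1 := hbl l (mem_of_mem_erase hl)
    have h2 := ne_of_mem_erase hl
    rw [mem_Icc]
    omega
  have hLm : ∀ l ∈ F, ∃ m : ℤ, |(l : ℝ) * (2 * t) - m| ≤ δ := fun l hl =>
    (mem_filter.1 (mem_filter.1 hl).1).2
  obtain ⟨m₀, hm₀⟩ := hLm l₀ hl₀F
  have hL'θ : ∀ l ∈ L', ∃ m : ℤ, |(l : ℝ) * (2 * t) - m| ≤ 32 * D ^ 2 / y := by
    intro u hu
    obtain ⟨l, hl, rfl⟩ := mem_image.1 hu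
    have hlF := mem_of_mem_erase hl
    obtain ⟨m, hm⟩ := hLm l hlF
    refine ⟨m - m₀, ?_⟩
    have h1 : ((l - l₀ : ℕ) : ℝ) = l - l₀ := Nat.cast_sub (hbl l hlF).1
    have h2 : ((l - l₀ : ℕ) : ℝ) * (2 * t) - ((m - m₀ : ℤ) : ℝ) =
        ((l : ℝ) * (2 * t) - m) - ((l₀ : ℝ) * (2 * t) - m₀) := by
      rw [h1]
      push_cast
      ring
    rw [h2]
    calc _ ≤ |(l : ℝ) * (2 * t) - m| + |(l₀ : ℝ) * (2 * t) - m₀| := abs_sub _ _
      _ ≤ δ + δ := add_le_add hm hm₀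
      _ = 32 * D ^ 2 / y := by
        rw [hδ]
        ring
  have hcard' : (Y : ℝ) ≤ 2 * (32 * D ^ 2) * L'.card := by
    have h1 : 1 ≤ F.card := card_pos.2 hFne
    rw [hL'c, Nat.cast_sub h1, Nat.cast_one]
    have h2 : (Y : ℝ) < 16 * D ^ 2 * F.card := by
      rw [div_lt_iff₀ (by positivity)] at hb
      linarith
    nlinarith
  have hxY : 2 * (32 * D ^ 2) * Y + 2 * (32 * D ^ 2) * (32 * D ^ 2) < (y : ℝ) := by
    have h1 : 2 * (32 * D ^ 2) * (Y : ℝ) ≤ y / 2 := by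
      calc 2 * (32 * D ^ 2) * (Y : ℝ) ≤ 2 * (32 * D ^ 2) * (y / (128 * D ^ 2)) :=
            mul_le_mul_of_nonneg_left hYle (by positivity)
        _ = y / 2 := by
          field_simp
          ring
    have h2 : 2 * (32 * D ^ 2) * (32 * D ^ 2) = 2048 * D ^ 4 := by ring
    rw [h2]
    have h3 : 0 < D ^ 4 := by positivity
    linarith
  obtain ⟨q, hq1, hq2, c, hc⟩ := arc y Y (32 * D ^ 2) (2 * t) (by nlinarith) hyN hY1 L' hL'sub hL'θ
    hcard' hxY
  have hq0 : (0 : ℝ) < q := by exact_mod_cast hq1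
  refine ⟨2 * q, by omega, ?_, c, ?_⟩
  · push_cast
    have h1 : (2 : ℝ) ^ 20 * D ^ 2 ≤ D ^ 24 := le_trans (by linarith) hp4
    linarith
  · have h1 : t - c / ((2 * q : ℕ) : ℝ) = (2 * t - c / q) / 2 := by
      push_cast
      field_simp
    rw [h1, abs_div, abs_two]
    calc |2 * t - c / q| / 2 ≤ 2 * (32 * D ^ 2) ^ 2 / (y * Y) / 2 := by
          have := hc
          gcongr
      _ = 1024 * D ^ 4 / (y * Y) := by ring
      _ ≤ 1024 * D ^ 4 / (y * (y / (256 * D ^ 2))) := by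
          gcongr
      _ = 2 ^ 18 * D ^ 6 / (y : ℝ) ^ 2 := by
          field_simp
          ring
      _ ≤ D ^ 24 / (y : ℝ) ^ 2 := by
          refine div_le_div_of_nonneg_right ?_ (by positivity)
          calc (2 : ℝ) ^ 18 * D ^ 6 ≤ D ^ 18 * D ^ 6 :=
                mul_le_mul_of_nonneg_right (hD2 18) (by positivity)
            _ = D ^ 24 := by ring

end Pool.Agent.Helper64.AY.Wey
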